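import Pool.Agent.Helper4.PU.Defs
import Pool.Agent.Helper90.MT.Common
import Pool.Agent.Helper83.MT.Comb
import Pool.Agent.Helper83.MT.Ana

/-!
# Project PU: the size of the sieve weight, the number of the prime factors in `PS R W`
-/

set_option autoImplicit false

open Finset

namespace Pool.Agent.Helper66.PU

open Pool.Agent.Helper1.MT

private theorem wp_nonneg' (R W : ℕ) (p : PS R W) : 0 ≤ wp R W p := by
  unfold wp
  positivity

/-- The prime divisors of `m` among the primes of the sieve. -/
private theorem card_div_le (R W m r : ℕ) (hr : ((PS R W).filter (fun p => p ∣ m)).card ≤ r) :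
    ((univ : Finset (PS R W)).filter (fun p : PS R W => (p : ℕ) ∣ m)).card ≤ r := by
  refine le_trans ?_ hr
  have h1 : (((univ : Finset (PS R W)).filter (fun p : PS R W => (p : ℕ) ∣ m)).image
      (fun p : PS R W => (p : ℕ))) ⊆ (PS R W).filter (fun p => p ∣ m) := by
    intro q hq
    obtain ⟨p, hp, rfl⟩ := Finset.mem_image.1 hq
    have h2 := (Finset.mem_filter.1 hp).2
    exact Finset.mem_filter.2 ⟨p.2, h2⟩
  refine le_trans (le_of_eq ?_) (Finset.card_le_card h1)
  rw [Finset.card_image_of_injective _ Subtype.val_injective]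

/-- The number of colourings that are compatible with `n`. -/
private theorem card_Dv_le {κ : Type} [Fintype κ] [DecidableEq κ] (R W : ℕ) (h : κ → ℕ)
    (n r : ℕ) (hr : ∀ i, ((PS R W).filter (fun p => p ∣ n + h i)).card ≤ r)
    (s : Finset (PS R W → Option κ)) (hs : ∀ c ∈ s, Dv h c n) :
    s.card ≤ 2 ^ (Fintype.card κ * r) := by
  classical
  have h1 : s.image (fun c : PS R W → Option κ => fun i : κ => cls c i) ⊆
      Fintype.piFinset (fun i : κ =>
        ((univ : Finset (PS R W)).filter (fun p : PS R W => (p : ℕ) ∣ n + h i)).powerset) := by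
    intro f hf
    obtain ⟨c, hc, rfl⟩ := Finset.mem_image.1 hf
    rw [Fintype.mem_piFinset]
    intro i
    rw [Finset.mem_powerset]
    intro p hp
    rw [Finset.mem_filter]
    exact ⟨Finset.mem_univ _, hs c hc p i (Pool.Agent.Helper90.MT.mem_cls.1 hp)⟩
  have h2 : s.card = (s.image (fun c : PS R W → Option κ => fun i : κ => cls c i)).card :=
    (Finset.card_image_of_injective _ Pool.Agent.Helper90.MT.cls_inj).symm
  rw [h2]
  refine le_trans (Finset.card_le_card h1) ?_
  rw [Fintype.card_piFinset]
  calc ∏ i : κ, (((univ : Finset (PS R W)).filter (fun p : PS R W => (p : ℕ) ∣ n + h i)).powerset).card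
      ≤ ∏ _i : κ, 2 ^ r := by
        refine Finset.prod_le_prod' fun i _ => ?_
        rw [Finset.card_powerset]
        exact Nat.pow_le_pow_right (by norm_num) (card_div_le R W (n + h i) r (hr i))
    _ = 2 ^ (Fintype.card κ * r) := by
        rw [Finset.prod_const, Finset.card_univ, ← pow_mul, mul_comm]

theorem weightPS : Pool.Agent.Helper4.PU.WeightPS := by
  obtain ⟨C, hC, hP⟩ := Pool.Agent.Helper83.MT.prod_bound
  refine ⟨C, hC, ?_⟩
  intro κ _ _ R W h y n r hR hy hn hr
  have hb : ∀ c : PS R W → Option κ, |lam (wp R W) y c| ≤ (C * Real.log R) ^ Fintype.card κ :=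
    fun c => (Pool.Agent.Helper83.MT.abs_lam_le (wp_nonneg' R W) hy c).trans
      (hP (Fintype.card κ) W R (by omega))
  have hB : 0 ≤ (C * Real.log R) ^ Fintype.card κ :=
    (abs_nonneg _).trans (hb (fun _ => none))
  unfold sw
  classical
  rw [← sq_abs]
  refine pow_le_pow_left₀ (abs_nonneg _) ?_ 2
  refine (Finset.abs_sum_le_sum_abs _ _).trans ?_
  refine (Finset.sum_le_card_nsmul _ _ _ fun c _ => hb c).trans ?_
  rw [nsmul_eq_mul]
  refine mul_le_mul_of_nonneg_right ?_ hB
  have h1 := card_Dv_le R W h n r hr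
    (univ.filter (fun c : PS R W → Option κ => Dv h c n)) (fun c hc => (Finset.mem_filter.1 hc).2)
  refine le_trans (le_of_eq ?_) (show ((univ.filter
    (fun c : PS R W → Option κ => Dv h c n)).card : ℝ) ≤ 2 ^ (Fintype.card κ * r) by
      exact_mod_cast h1)
  congr

end Pool.Agent.Helper66.PU
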