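import Pool.Agent.Helper66.PU.Main

/-!
# Project PU: the number of the prime factors of a product, and Euler's function
-/

set_option autoImplicit false

open Finset Filter
open ArithmeticFunction (cardFactors)

namespace Pool.Agent.Helper66.PU

open Pool.Agent.Helper1.MT
open Pool.Agent.Helper66.PV
open Pool.Agent.Helper66.PAP (cardFactors_le)

/-- The number of the prime factors of a product. -/
theorem cardFactors_mul_le {k W y g m : ℕ} (hk : 1 ≤ k) (hy : y = g * m) (hy0 : 0 < y)
    (hg : g ≤ 2 * k) (hm : Nat.Coprime m W) :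
    cardFactors y ≤ oW W y + ⌈5 / 2 * Real.log (2 * k)⌉₊ := by
  classical
  have hg0 : g ≠ 0 := by rintro rfl; simp at hy; omega
  have hm0 : m ≠ 0 := by rintro rfl; simp at hy; omega
  have hkr : (1 : ℝ) ≤ k := by exact_mod_cast hk
  rw [hy, ArithmeticFunction.cardFactors_mul hg0 hm0, ← hy, add_comm]
  apply add_le_add
  · rw [ArithmeticFunction.cardFactors_eq_sum_factorization, Finsupp.sum,
      Nat.support_factorization]
    unfold oW
    have h1 : m.primeFactors ⊆ y.primeFactors.filter (fun p => ¬ p ∣ W) := by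
      intro p hp
      rw [Nat.mem_primeFactors] at hp
      rw [mem_filter, Nat.mem_primeFactors]
      refine ⟨⟨hp.1, hy ▸ Dvd.dvd.mul_left hp.2.1 g, by omega⟩, fun hpW => ?_⟩
      have h2 : p ∣ Nat.gcd m W := Nat.dvd_gcd hp.2.1 hpW
      rw [hm] at h2
      exact hp.1.one_lt.ne' (Nat.dvd_one.1 h2)
    calc ∑ p ∈ m.primeFactors, m.factorization p ≤ ∑ p ∈ m.primeFactors, y.factorization p := by
          apply Finset.sum_le_sum
          intro p _
          rw [hy, Nat.factorization_mul hg0 hm0, Finsupp.add_apply]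
          exact Nat.le_add_left _ _
      _ ≤ _ := Finset.sum_le_sum_of_subset h1
  · have h1 : (g : ℝ) ≤ (3 / 2 : ℝ) ^ (5 / 2 * Real.log (2 * k)) := by
      have h2 : (g : ℝ) ≤ 2 * k := by exact_mod_cast hg
      refine h2.trans ?_
      have h3 : Real.exp (2 / 5) ≤ 3 / 2 := by
        have h4 : Real.exp (2 / 5) ^ 5 ≤ (3 / 2 : ℝ) ^ 5 := by
          rw [← Real.exp_nat_mul]
          have h5 : ((5 : ℕ) : ℝ) * (2 / 5) = 1 + 1 := by norm_num
          rw [h5, Real.exp_add]
          have h6 := Real.exp_one_lt_d9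
          have h7 := Real.exp_pos 1
          nlinarith
        exact le_of_pow_le_pow_left₀ (by norm_num) (by norm_num) h4
      have h4 : 2 / 5 ≤ Real.log (3 / 2) := by
        rw [Real.le_log_iff_exp_le (by norm_num)]
        exact h3
      have h5 : (0 : ℝ) ≤ Real.log (2 * k) := Real.log_nonneg (by linarith)
      rw [← Real.log_le_log_iff (by positivity) (by positivity), Real.log_rpow (by norm_num)]
      nlinarith
    have h2 := cardFactors_le (y := g) hg0 (w := 3 / 2) (by norm_num) h1 (by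
      intro p hp _
      have : (2 : ℝ) ≤ p := by exact_mod_cast hp.two_le
      linarith)
    exact_mod_cast h2.trans (Nat.le_ceil _)

theorem totient_div_eq {n : ℕ} (hn : 0 < n) :
    (n.totient : ℝ) / n = ∏ p ∈ n.primeFactors, (1 - (p : ℝ)⁻¹) := by
  have hnr : (0 : ℝ) < n := by exact_mod_cast hn
  have h2 := Nat.totient_eq_mul_prod_factors n
  have h3 := congrArg (Rat.cast : ℚ → ℝ) h2
  push_cast at h3
  rw [h3]
  field_simp

theorem totient_div_anti {a b : ℕ} (ha : 0 < a) (hb : 0 < b)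
    (h : ∀ p : ℕ, p.Prime → p ∣ a → p ∣ b) :
    (b.totient : ℝ) / b ≤ (a.totient : ℝ) / a := by
  rw [totient_div_eq ha, totient_div_eq hb]
  have h01 : ∀ p ∈ b.primeFactors, 0 ≤ 1 - (p : ℝ)⁻¹ ∧ 1 - (p : ℝ)⁻¹ ≤ 1 := by
    intro p hp
    have h1 : (1 : ℝ) ≤ p := by exact_mod_cast (Nat.prime_of_mem_primeFactors hp).one_lt.le
    have h2 : (p : ℝ)⁻¹ ≤ 1 := inv_le_one_of_one_le₀ h1
    have h3 : (0 : ℝ) ≤ (p : ℝ)⁻¹ := by positivity
    constructor <;> linarith
  have hsub : a.primeFactors ⊆ b.primeFactors := by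
    intro p hp
    rw [Nat.mem_primeFactors] at hp ⊢
    exact ⟨hp.1, h p hp.1 hp.2.1, by omega⟩
  rw [← Finset.prod_sdiff hsub]
  refine mul_le_of_le_one_left ?_ ?_
  · exact Finset.prod_nonneg fun p hp => (h01 p (hsub hp)).1
  · exact Finset.prod_le_one (fun p hp => (h01 p (Finset.mem_sdiff.1 hp).1).1)
      fun p hp => (h01 p (Finset.mem_sdiff.1 hp).1).2

end Pool.Agent.Helper66.PU
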