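import Pool.Agent.Helper4.PU.OneT

/-!
# Project PU: the `n` for which `n + t` has few small prime factors, for one `t`
-/

set_option autoImplicit false

open Finset
open ArithmeticFunction (cardFactors)

namespace Pool.Agent.Helper66.PU

open Pool.Agent.Helper1.MT (Le supp cls ws V0 B1 PS wp tp NS lev sw lam Expand PS_prime PS_large
  NS_gt NS_mod T)
open Pool.Agent.Helper4.PU (SumExact EnergyOne Exact Sm mem_Sm Yv yv_le_Yv Yv_le_one Yv_anti
  one_le_V0)
open Pool.Agent.Helper66.PAP (mem_PS)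
open Pool.Agent.Helper66.PV (GoodV SetN gv uv Sv Bv yv yv_abs_le yv_supp uv_nonneg)

/-- The sum over the `n` with `P n`, for which `n + t` has few small prime factors. -/
theorem one_tG (hSE : SumExact) (hEn : EnergyOne) {C4 : ℝ}
    (hSm : ∀ (R W m : ℕ) (z : ℝ), 3 ≤ R → 1 ≤ z →
      ∑ A ∈ Sm R W m z, (18 : ℝ) ^ A.card / ∏ p ∈ A, (p : ℝ) ≤
        (18 * (Real.log (Real.log R) + C4)) ^ m ∧
      ((Sm R W m z).card : ℝ) ≤ (2 * z) ^ m)
    {κ : Type} [Fintype κ] [DecidableEq κ] {K J : κ → ℕ} {D0 r m t W v : ℕ} {h : κ → ℕ}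
    {x τ η Bd : ℝ} (hD : Fintype.card κ + 1 ≤ D0) (hr : 1 ≤ r) (hS : SetN D0 h W)
    (hG : GoodV (wp (lev x) W) (tp (lev x) W) (gv K J (lev x) W) τ η)
    (x9 : 9 ≤ x) (R3 : 3 ≤ lev x)
    (e3 : 4 * Real.exp (4 * (Fintype.card κ + 1)) ^ 2 * x ^ (1 / 4 : ℝ) ≤ x ^ (53 / 162 : ℝ))
    (e4 : (W : ℝ) ≤ (lev x : ℝ) ^ (1 / (r : ℝ)))
    (e5 : (W : ℝ) * lev x ≤ x ^ (23 / 54 : ℝ)) (e6 : (3 : ℝ) ^ r ≤ lev x)
    (hBd : ∏ p ∈ univ.filter (fun p : PS (lev x) W => (lev x : ℝ) ^ (1 / (r : ℝ)) < ((p : ℕ) : ℝ) ∨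
      ∃ i, ((p : ℕ) : ℤ) ∣ (h i : ℤ) - t), (1 + wp (lev x) W p) ≤ Bd)
    (hmr : m ≤ r) (P : ℕ → Prop) [DecidablePred P]
    (hP : ∀ n ∈ NS x W v, P n → ∃ A ⊆ PS (lev x) W,
      (∀ p ∈ A, (p : ℝ) ≤ (lev x : ℝ) ^ (1 / (r : ℝ))) ∧
      Exact (lev x) W ((lev x : ℝ) ^ (1 / (r : ℝ))) A (n + t) ∧ A.card ≤ m) :
    ∑ n ∈ (NS x W v).filter P, uv h K J W x n ≤
      (18 * (Real.log (Real.log (lev x)) + C4)) ^ m *
        (2 * Bd / V0 (wp (lev x) W) (tp (lev x) W)) * Sv K J W x +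
        2 ^ r * lev x / x ^ (1 / 4 : ℝ) := by
  classical
  have hx0 : (0 : ℝ) < x := by linarith
  have hx1 : (1 : ℝ) ≤ x := by linarith
  have hWr : (0 : ℝ) < W := by exact_mod_cast hS.W_pos
  have hW1 : (1 : ℝ) ≤ W := by exact_mod_cast hS.W_pos
  have hRr : (3 : ℝ) ≤ lev x := by exact_mod_cast R3
  have hRx : (lev x : ℝ) ≤ x ^ (1 / 81 : ℝ) := Nat.floor_le (by positivity)
  have hr0 : (0 : ℝ) < r := by exact_mod_cast hr
  set R := lev x with hRdef
  set z : ℝ := (R : ℝ) ^ (1 / (r : ℝ)) with hz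
  have hz1 : 1 ≤ z := hW1.trans e4
  have hzr : z ^ r = R := by
    rw [hz, ← Real.rpow_natCast, ← Real.rpow_mul (by linarith), one_div,
      inv_mul_cancel₀ hr0.ne', Real.rpow_one]
  have hzR : z ≤ R := by
    calc z = z ^ 1 := (pow_one z).symm
      _ ≤ z ^ r := pow_le_pow_right₀ hz1 hr
      _ = R := hzr
  set L : ℝ := x ^ (1 / 4 : ℝ) with hL
  have hL0 : 0 < L := by positivity
  have hlogx : 0 ≤ Real.log x := Real.log_nonneg hx1
  set V := V0 (wp R W) (tp R W) with hV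
  have hwp0 : ∀ p : PS R W, 0 ≤ wp R W p := fun p => by unfold wp; positivity
  have hV1 : 1 ≤ V := one_le_V0 hwp0
  set B : ℝ := ∏ i, Bv K J W x i with hB
  have hE := hEn (PS R W) κ (wp R W) (tp R W) (gv K J R W) τ η hG
  have hB0 : 0 ≤ B := by
    refine Finset.prod_nonneg fun i _ => ?_
    unfold Bv B1
    exact Finset.sum_nonneg fun S _ =>
      mul_nonneg (sq_nonneg _) (Finset.prod_nonneg fun p _ => hwp0 p)
  have hBd0 : 0 ≤ Bd := le_trans (Finset.prod_nonneg fun p _ => by linarith [hwp0 p]) hBd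
  -- one set of primes
  have hone : ∀ A ∈ Sm R W m z, ∑ n ∈ (NS x W v).filter (fun n => Exact R W z A (n + t)),
      uv h K J W x n ≤ Real.log x / (2 * W) * (2 * B * Bd / V) *
        ((18 : ℝ) ^ A.card / ∏ p ∈ A, (p : ℝ)) + 1 / L := by
    intro A hA
    obtain ⟨hA1, hA2, hA3⟩ := mem_Sm.1 hA
    have hpos : 0 < ∏ q ∈ A, (q : ℝ) := Finset.prod_pos fun q hq => by
      have := (mem_PS.1 (hA1 hq)).2.1.pos
      exact_mod_cast this
    have hprod : ∏ q ∈ A, (q : ℝ) ≤ R := by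
      calc ∏ q ∈ A, (q : ℝ) ≤ ∏ _q ∈ A, z :=
            Finset.prod_le_prod (fun q _ => Nat.cast_nonneg q) hA3
        _ = z ^ A.card := by rw [Finset.prod_const]
        _ ≤ z ^ r := pow_le_pow_right₀ hz1 (hA2.trans hmr)
        _ = R := hzr
    have hWx : ((W * ∏ q ∈ A, q : ℕ) : ℝ) ≤ x ^ (23 / 54 : ℝ) := by
      push_cast
      exact (mul_le_mul_of_nonneg_left hprod hWr.le).trans e5
    have h1 := hSE κ D0 h t R x L z hD x9 hL0 e3 R3 hRx A W v hS.W_pos hS.small hS.diff hA1 hA3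
      hWx 1 (yv (tp R W) (gv K J R W)) (Yv (gv K J R W)) (2 * B) Bd (yv_le_Yv hG) (Yv_le_one hG)
      (Yv_anti hG) (by
        rw [mul_one]
        exact (pow_le_pow_right₀ (by norm_num) (hA2.trans hmr)).trans e6)
      (fun c hc => yv_supp hc) hE hBd
    unfold uv
    refine h1.trans (le_of_eq ?_)
    push_cast
    have hV0 : V ≠ 0 := by linarith
    have hpos' := hpos.ne'
    have hW' := hWr.ne'
    rw [← hV]
    field_simp
  have hu0 : ∀ n, 0 ≤ uv h K J W x n := fun n => uv_nonneg h K J W x n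
  -- the union
  have hcov : ∑ n ∈ (NS x W v).filter P, uv h K J W x n ≤
      ∑ A ∈ Sm R W m z, ∑ n ∈ (NS x W v).filter (fun n => Exact R W z A (n + t)),
        uv h K J W x n := by
    have hnn : ∀ (A : Finset ℕ) (n : ℕ), 0 ≤ if Exact R W z A (n + t) then uv h K J W x n
        else 0 := by
      intro A n
      split_ifs
      · exact hu0 n
      · exact le_rfl
    have h1 : ∀ n ∈ (NS x W v).filter P, uv h K J W x n ≤
        ∑ A ∈ Sm R W m z, if Exact R W z A (n + t) then uv h K J W x n else 0 := by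
      intro n hn
      rw [mem_filter] at hn
      obtain ⟨A, hA1, hA2, hA3, hA4⟩ := hP n hn.1 hn.2
      have hmem : A ∈ Sm R W m z := mem_Sm.2 ⟨hA1, hA4, hA2⟩
      calc uv h K J W x n = if Exact R W z A (n + t) then uv h K J W x n else 0 := by
            rw [if_pos hA3]
        _ ≤ _ := Finset.single_le_sum (f := fun A : Finset ℕ =>
            if Exact R W z A (n + t) then uv h K J W x n else 0) (fun A _ => hnn A n) hmem
    refine (Finset.sum_le_sum h1).trans ?_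
    refine (Finset.sum_le_sum_of_subset_of_nonneg (Finset.filter_subset _ _) ?_).trans ?_
    · intro n _ _
      exact Finset.sum_nonneg fun A _ => hnn A n
    · rw [Finset.sum_comm]
      refine Finset.sum_le_sum fun A _ => ?_
      rw [Finset.sum_filter]
  obtain ⟨hs1, hs2⟩ := hSm R W m z R3 hz1
  have hcard : ((Sm R W m z).card : ℝ) ≤ 2 ^ r * R := by
    calc ((Sm R W m z).card : ℝ) ≤ (2 * z) ^ m := hs2
      _ ≤ (2 * z) ^ r := pow_le_pow_right₀ (by linarith) hmr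
      _ = 2 ^ r * R := by rw [mul_pow, hzr]
  have hMn : 0 ≤ Real.log x / (2 * W) * (2 * B * Bd / V) := by positivity
  calc ∑ n ∈ (NS x W v).filter P, uv h K J W x n
      ≤ ∑ A ∈ Sm R W m z, (Real.log x / (2 * W) * (2 * B * Bd / V) *
        ((18 : ℝ) ^ A.card / ∏ p ∈ A, (p : ℝ)) + 1 / L) :=
        hcov.trans (Finset.sum_le_sum hone)
    _ = Real.log x / (2 * W) * (2 * B * Bd / V) *
        ∑ A ∈ Sm R W m z, ((18 : ℝ) ^ A.card / ∏ p ∈ A, (p : ℝ)) +
          (Sm R W m z).card / L := by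
        rw [Finset.sum_add_distrib, ← Finset.mul_sum, Finset.sum_const, nsmul_eq_mul,
          mul_one_div]
    _ ≤ Real.log x / (2 * W) * (2 * B * Bd / V) *
        (18 * (Real.log (Real.log R) + C4)) ^ m + 2 ^ r * R / L :=
        add_le_add (mul_le_mul_of_nonneg_left hs1 hMn) (div_le_div_of_nonneg_right hcard hL0.le)
    _ = _ := by
        unfold Sv
        rw [← hB]
        ring

end Pool.Agent.Helper66.PU
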