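import Pool.Agent.Helper4.PU.Inter
import Pool.Agent.Helper66.PU.OneG
import Pool.Agent.Helper66.PU.SmallF

/-!
# Project PU: the intermediate integers with few small prime factors
-/

set_option autoImplicit false

open Finset Filter
open ArithmeticFunction (cardFactors)

namespace Pool.Agent.Helper66.PU

open Pool.Agent.Helper1.MT (Le supp cls ws V0 B1 PS wp tp NS lev sw lam Expand PS_prime PS_large
  NS_gt NS_mod T SingAvg lev_tendsto lev_log)
open Pool.Agent.Helper4.PU (SumExact EnergyOne Exact Sm mem_Sm Sg SmallSets BadProd SingCop RhoBound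
  inter_ev one_le_V0 Sg_nonneg Sg_anti Sg_le_full density_le inter_num)
open Pool.Agent.Helper66.PAP (mem_PS)
open Pool.Agent.Helper66.PV (GoodV SetN gv uv Sv Bv yv yv_abs_le yv_supp uv_nonneg)

/-- Some integer between `n` and `n + (k-1) d`, not of the form `n + i d`, has at most `j` small
prime factors. -/
def InterG (k d j : ℕ) (δ : ℝ) (n : ℕ) : Prop :=
  ∃ t < (k - 1) * d, ¬ d ∣ t ∧ smallF k (((n + t : ℕ) : ℝ) ^ δ) (n + t) ≤ j

theorem card_le_smallF {k : ℕ} {z : ℝ} {n : ℕ} (hn : n ≠ 0) (A : Finset ℕ)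
    (hA : ∀ p ∈ A, p.Prime ∧ p ∣ n ∧ k < p ∧ (p : ℝ) ≤ z) : A.card ≤ smallF k z n := by
  unfold smallF
  have h1 : A ⊆ n.primeFactors.filter (fun p => k < p ∧ (p : ℝ) ≤ z) := by
    intro p hp
    obtain ⟨h1, h2, h3, h4⟩ := hA p hp
    rw [mem_filter, Nat.mem_primeFactors]
    exact ⟨⟨h1, h2, hn⟩, h3, h4⟩
  calc A.card = ∑ _p ∈ A, 1 := by rw [Finset.card_eq_sum_ones]
    _ ≤ ∑ p ∈ A, n.factorization p := by
        apply Finset.sum_le_sum
        intro p hp
        obtain ⟨h1, h2, h3, h4⟩ := hA p hp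
        exact (h1.dvd_iff_one_le_factorization hn).1 h2
    _ ≤ _ := Finset.sum_le_sum_of_subset h1

/-- The small prime factors of `n + t`. -/
theorem small_set {k D0 j W v t n R : ℕ} {z y : ℝ} (hk : k < D0) (hW : 0 < W) (hn : 0 < n)
    (hmod : n ≡ v [MOD W]) (hsm : ∀ p : ℕ, p.Prime → p < D0 → p ∣ W) (hWz : (W : ℝ) ≤ z)
    (hzy : z ≤ y) (hj : smallF k y (n + t) ≤ j) :
    ∃ A ⊆ PS R W, (∀ p ∈ A, (p : ℝ) ≤ z) ∧ Exact R W z A (n + t) ∧ A.card ≤ j ∧
      ((∃ q : ℕ, q.Prime ∧ k < q ∧ q ∣ W ∧ q ∣ v + t) → A.card + 1 ≤ j) := by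
  classical
  have hne : n + t ≠ 0 := by omega
  set A : Finset ℕ := (PS R W).filter (fun p : ℕ => (p : ℝ) ≤ z ∧ p ∣ n + t) with hA
  have hAp : ∀ p ∈ A, p.Prime ∧ p ∣ n + t ∧ k < p ∧ (p : ℝ) ≤ y := by
    intro p hp
    rw [hA, mem_filter, mem_PS] at hp
    obtain ⟨⟨h1, h2, h3⟩, h4, h5⟩ := hp
    refine ⟨h2, h5, ?_, h4.trans hzy⟩
    by_contra h6
    exact h3 (hsm p h2 (by omega))
  refine ⟨A, Finset.filter_subset _ _, fun p hp => (mem_filter.1 hp).2.1, ?_, ?_, ?_⟩
  · intro p hp hpz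
    rw [hA, mem_filter]
    exact ⟨fun h => ⟨hp, hpz, h⟩, fun h => h.2.2⟩
  · exact (card_le_smallF hne A hAp).trans hj
  · rintro ⟨q, hq, hkq, hqW, hqv⟩
    have hqn : q ∣ n + t := by
      have h1 : n + t ≡ v + t [MOD q] := (hmod.of_dvd hqW).add_right t
      exact (h1.dvd_iff (dvd_refl q)).2 hqv
    have hqA : q ∉ A := by
      intro h
      rw [hA, mem_filter, mem_PS] at h
      exact h.1.2.2 hqW
    have hqz : (q : ℝ) ≤ y := by
      have h1 : q ≤ W := Nat.le_of_dvd hW hqW
      have h2 : (q : ℝ) ≤ W := by exact_mod_cast h1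
      linarith
    have h1 := card_le_smallF (k := k) (z := y) hne (insert q A) (by
      intro p hp
      rw [mem_insert] at hp
      rcases hp with rfl | hp
      · exact ⟨hq, hqn, hkq, hqz⟩
      · exact hAp p hp)
    rw [Finset.card_insert_of_notMem hqA] at h1
    exact h1.trans hj

/-- The `n` with an intermediate integer that has few small prime factors contribute little. -/
def InterSumG : Prop :=
  ∀ (k D0 j : ℕ) (δ : ℝ) (K J : Fin k → ℕ) (c : ℝ), 1 ≤ k → (k + 2) ^ 10 ≤ D0 → 0 < δ → 0 < c →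
    ∃ C X0 : ℝ, 0 < C ∧ ∀ x : ℝ, X0 ≤ x → ∀ d W v : ℕ, 0 < d → (d : ℝ) ≤ Real.log x →
      SetN D0 (fun i : Fin k => (i : ℕ) * d) W → (W : ℝ) ≤ Real.log x ^ 2 →
      (∀ p : ℕ, p.Prime → p ∣ W → p < D0 ∨ p ∣ d) → ∀ τ η : ℝ,
      GoodV (wp (lev x) W) (tp (lev x) W) (gv K J (lev x) W) τ η →
      c * ((W.totient : ℝ) / W) * Real.log (lev x) ≤ V0 (wp (lev x) W) (tp (lev x) W) →
      ∀ [DecidablePred (InterG k d j δ)],
      ∑ n ∈ (NS x W v).filter (InterG k d j δ), uv (fun i : Fin k => (i : ℕ) * d) K J W x n ≤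
      C * d * Real.log (Real.log x) ^ j / Real.log x * Sv K J W x + 1

theorem interSumG (hSE : SumExact) (hEn : EnergyOne) (hSm : SmallSets) (hBp : BadProd)
    (hSc : SingCop) (hSa : SingAvg) (hRho : RhoBound) : InterSumG := by
  classical
  intro k D0 j δ K J c hk hD hδ hc
  set r : ℕ := max ⌈1 / δ⌉₊ (j + 1) with hrdef
  have hjr : j + 1 ≤ r := le_max_right _ _
  have hr : 1 ≤ r := by omega
  have hδr : 1 / (r : ℝ) ≤ δ := by
    have h1 : (1 : ℝ) / δ ≤ r := (Nat.le_ceil _).trans (Nat.cast_le.2 (le_max_left _ _))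
    have h2 : (0 : ℝ) < r := by exact_mod_cast hr
    rw [div_le_iff₀ hδ] at h1
    rw [div_le_iff₀ h2]
    linarith
  obtain ⟨C4, hC4, hSm⟩ := hSm
  obtain ⟨Cb, hCb, hBp⟩ := hBp
  obtain ⟨Cs, hCs, hSc⟩ := hSc k
  obtain ⟨Ca, hCa, hSa⟩ := hSa k
  obtain ⟨X0, hX0⟩ := eventually_atTop.1 (inter_ev k r C4 hr)
  have hkr : (0 : ℝ) < k := by exact_mod_cast hk
  have hrr : (0 : ℝ) < r := by exact_mod_cast hr
  have hD2 : k + 2 ≤ D0 := (Nat.le_self_pow (by norm_num) _).trans hD
  have hD0r : (0 : ℝ) < D0 := by exact_mod_cast (by omega : 0 < D0)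
  refine ⟨164 * Cb * r / c * (Cs * D0 + 4 * Ca * k) * 36 ^ j, X0, by positivity, ?_⟩
  intro x hx d W v hd hdx hS hW2 hpW τ η hG hV _
  obtain ⟨x9, R3, e2, e3, e5, e6, e7, e8, e9, e10, e11, e12⟩ := hX0 x hx
  have hx0 : (0 : ℝ) < x := by linarith
  have hx1 : (1 : ℝ) ≤ x := by linarith
  have hRr : (3 : ℝ) ≤ lev x := by exact_mod_cast R3
  have hlogR : 0 < Real.log (lev x) := Real.log_pos (by linarith)
  have hlx : 0 < Real.log x := Real.log_pos (by linarith)
  have hdr : (0 : ℝ) < d := by exact_mod_cast hd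
  have hWr : (0 : ℝ) < W := by exact_mod_cast hS.W_pos
  have hphi : (0 : ℝ) < W.totient := by exact_mod_cast Nat.totient_pos.2 hS.W_pos
  set h : Fin k → ℕ := fun i => (i : ℕ) * d with hh
  have hu0 : ∀ n, 0 ≤ uv h K J W x n := fun n => uv_nonneg h K J W x n
  set LL := Real.log (Real.log x) with hLL
  have hwp0 : ∀ p : PS (lev x) W, 0 ≤ wp (lev x) W p := fun p => by unfold wp; positivity
  have hS0 : 0 ≤ Sv K J W x := by
    unfold Sv
    apply mul_nonneg (by positivity)
    refine Finset.prod_nonneg fun i _ => ?_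
    unfold Bv B1
    exact Finset.sum_nonneg fun S _ =>
      mul_nonneg (sq_nonneg _) (Finset.prod_nonneg fun p _ => hwp0 p)
  set V := V0 (wp (lev x) W) (tp (lev x) W) with hVdef
  set ρ : ℝ := (W.totient : ℝ) / W with hρ
  have hρ0 : 0 < ρ := by positivity
  have hV1 : 1 ≤ V := one_le_V0 hwp0
  rcases Nat.lt_or_ge k 2 with hk2 | hk2
  · -- no intermediate integers
    have hfe : (NS x W v).filter (InterG k d j δ) = ∅ := by
      rw [Finset.filter_eq_empty_iff]
      rintro n - ⟨t, ht, -⟩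
      have h1 : k - 1 = 0 := by omega
      rw [h1, zero_mul] at ht
      omega
    rw [hfe, Finset.sum_empty]
    have h2 : 0 ≤ 164 * Cb * r / c * (Cs * D0 + 4 * Ca * k) * 36 ^ j * d * LL ^ j /
        Real.log x * Sv K J W x := by positivity
    linarith
  -- the intermediate integers
  set Tt := (range ((k - 1) * d)).filter (fun t => ¬ d ∣ t) with hTt
  have hdW : ∀ p : ℕ, p.Prime → p ∣ d → p ∣ W := by
    intro p hp hpd
    refine hS.diff ⟨1, by omega⟩ ⟨0, by omega⟩ (by simp) p hp ?_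
    have h1 : ((h ⟨1, by omega⟩ : ℕ) : ℤ) - (h ⟨0, by omega⟩ : ℕ) = (d : ℤ) := by
      simp [hh]
    rw [h1]
    exact_mod_cast hpd
  have hne : ∀ t ∈ Tt, ∀ i, h i ≠ t := by
    intro t ht i hi
    rw [hTt, mem_filter] at ht
    exact ht.2 (hi ▸ Dvd.intro_left _ rfl)
  set err : ℝ := 2 ^ r * lev x / x ^ (1 / 4 : ℝ) with herr
  have herr0 : 0 ≤ err := by positivity
  set G1 : ℝ := (36 * LL) ^ j with hG1
  set G2 : ℝ := if j = 0 then 0 else (36 * LL) ^ (j - 1) with hG2
  have hG10 : 0 ≤ G1 := by positivity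
  have hG20 : 0 ≤ G2 := by
    rw [hG2]
    split_ifs
    · exact le_rfl
    · positivity
  have e4 : (W : ℝ) ≤ (lev x : ℝ) ^ (1 / (r : ℝ)) := hW2.trans e5
  have e6' : (W : ℝ) * lev x ≤ x ^ (23 / 54 : ℝ) :=
    (mul_le_mul_of_nonneg_right hW2 (by linarith)).trans e6
  have hpow : ∀ m : ℕ, (18 * (Real.log (Real.log (lev x)) + C4)) ^ m ≤ (36 * LL) ^ m := by
    intro m
    apply pow_le_pow_left₀ (by linarith)
    linarith
  have hcard : Fintype.card (Fin k) = k := Fintype.card_fin k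
  -- the bad residues
  set Bt : ℕ → Prop := fun t => ∃ q : ℕ, q.Prime ∧ k < q ∧ q ∣ W ∧ q ∣ v + t with hBt
  have hzy : ∀ n ∈ NS x W v, ∀ t : ℕ,
      (lev x : ℝ) ^ (1 / (r : ℝ)) ≤ ((n + t : ℕ) : ℝ) ^ δ := by
    intro n hn t
    have hn2 : x ^ (1 / 2 : ℝ) ≤ ((n + t : ℕ) : ℝ) := by
      unfold NS at hn
      rw [mem_filter, mem_Ioc] at hn
      have h1 := Nat.lt_of_floor_lt hn.1.1
      have h2 : (n : ℝ) ≤ ((n + t : ℕ) : ℝ) := by exact_mod_cast Nat.le_add_right n t
      linarith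
    have hRx : (lev x : ℝ) ≤ x ^ (1 / 81 : ℝ) := Nat.floor_le (by positivity)
    calc (lev x : ℝ) ^ (1 / (r : ℝ)) ≤ (x ^ (1 / 81 : ℝ)) ^ (1 / (r : ℝ)) :=
          Real.rpow_le_rpow (by linarith) hRx (by positivity)
      _ = x ^ (1 / 81 * (1 / (r : ℝ))) := by rw [← Real.rpow_mul hx0.le]
      _ ≤ x ^ (1 / 2 * δ) := by
          apply Real.rpow_le_rpow_of_exponent_le hx1
          linarith
      _ = (x ^ (1 / 2 : ℝ)) ^ δ := by rw [← Real.rpow_mul hx0.le]
      _ ≤ _ := Real.rpow_le_rpow (by positivity) hn2 hδ.le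
  have hone : ∀ t ∈ Tt, ∑ n ∈ (NS x W v).filter
      (fun n => smallF k (((n + t : ℕ) : ℝ) ^ δ) (n + t) ≤ j),
      uv h K J W x n ≤ 2 * Cb * r * Sv K J W x / V *
        ((if ¬ Bt t then G1 else G2) * Sg h W t) + err := by
    intro t ht
    have hBd := hBp (Fin k) h t (lev x) W r R3 hr (hne t ht) e8
    have hSg0 := Sg_nonneg h W t
    have hset : ∀ n ∈ NS x W v, smallF k (((n + t : ℕ) : ℝ) ^ δ) (n + t) ≤ j →
        ∃ A ⊆ PS (lev x) W, (∀ p ∈ A, (p : ℝ) ≤ (lev x : ℝ) ^ (1 / (r : ℝ))) ∧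
          Exact (lev x) W ((lev x : ℝ) ^ (1 / (r : ℝ))) A (n + t) ∧ A.card ≤ j ∧
          (Bt t → A.card + 1 ≤ j) := by
      intro n hn hnj
      have hgt := NS_gt hn hx1
      exact small_set (k := k) (D0 := D0) (by omega) hS.W_pos (by omega) (NS_mod hn) hS.small e4
        (hzy n hn t) hnj
    have hgen : ∀ m : ℕ, m ≤ r → (∀ a : ℕ, a ≤ j → (Bt t → a + 1 ≤ j) → a ≤ m) →
        ∑ n ∈ (NS x W v).filter (fun n => smallF k (((n + t : ℕ) : ℝ) ^ δ) (n + t) ≤ j),
          uv h K J W x n ≤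
        2 * Cb * r * Sv K J W x / V * ((36 * LL) ^ m * Sg h W t) + err := by
      intro m hmr hm
      have h1 := one_tG hSE hEn hSm (K := K) (J := J) (h := h) (v := v) (t := t)
        (by rw [hcard]; omega) hr hS hG x9 R3 (by rw [hcard]; exact e3) e4 e6' e7 hBd hmr
        (fun n => smallF k (((n + t : ℕ) : ℝ) ^ δ) (n + t) ≤ j) (by
          intro n hn hnj
          obtain ⟨A, hA1, hA2, hA3, hA4, hA5⟩ := hset n hn hnj
          exact ⟨A, hA1, hA2, hA3, hm _ hA4 hA5⟩)
      refine h1.trans ?_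
      gcongr ?_ + err
      calc (18 * (Real.log (Real.log (lev x)) + C4)) ^ m *
            (2 * (Cb * r * Sg h W t) / V) * Sv K J W x
          ≤ (36 * LL) ^ m * (2 * (Cb * r * Sg h W t) / V) * Sv K J W x := by
            apply mul_le_mul_of_nonneg_right _ hS0
            exact mul_le_mul_of_nonneg_right (hpow m) (by positivity)
        _ = _ := by ring
    by_cases hco : ¬ Bt t
    · rw [if_pos hco]
      exact hgen j (by omega) (fun a ha _ => ha)
    · rw [if_neg hco]
      push Not at hco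
      by_cases hr1 : j = 0
      · have h2 : (NS x W v).filter
            (fun n => smallF k (((n + t : ℕ) : ℝ) ^ δ) (n + t) ≤ j) = ∅ := by
          rw [Finset.filter_eq_empty_iff]
          intro n hn hnj
          obtain ⟨A, -, -, -, -, hA5⟩ := hset n hn hnj
          have := hA5 hco
          omega
        rw [h2, Finset.sum_empty]
        positivity
      · rw [hG2, if_neg hr1]
        exact hgen (j - 1) (by omega) (fun a _ h2 => by
          have := h2 hco
          omega)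
  -- the union over t
  have hcov : ∑ n ∈ (NS x W v).filter (InterG k d j δ), uv h K J W x n ≤
      ∑ t ∈ Tt, ∑ n ∈ (NS x W v).filter
        (fun n => smallF k (((n + t : ℕ) : ℝ) ^ δ) (n + t) ≤ j),
        uv h K J W x n := by
    have hnn : ∀ (t n : ℕ), 0 ≤ if smallF k (((n + t : ℕ) : ℝ) ^ δ) (n + t) ≤ j
        then uv h K J W x n else 0 := by
      intro t n
      split_ifs
      · exact hu0 n
      · exact le_rfl
    have h1 : ∀ n ∈ (NS x W v).filter (InterG k d j δ), uv h K J W x n ≤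
        ∑ t ∈ Tt, if smallF k (((n + t : ℕ) : ℝ) ^ δ) (n + t) ≤ j then uv h K J W x n
          else 0 := by
      intro n hn
      rw [mem_filter] at hn
      obtain ⟨t, ht1, ht2, ht3⟩ := hn.2
      calc uv h K J W x n = if smallF k (((n + t : ℕ) : ℝ) ^ δ) (n + t) ≤ j
            then uv h K J W x n else 0 := by
            rw [if_pos ht3]
        _ ≤ _ := Finset.single_le_sum (f := fun t : ℕ =>
            if smallF k (((n + t : ℕ) : ℝ) ^ δ) (n + t) ≤ j then uv h K J W x n else 0)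
            (fun t _ => hnn t n) (mem_filter.2 ⟨mem_range.2 ht1, ht2⟩)
    refine (Finset.sum_le_sum h1).trans ?_
    refine (Finset.sum_le_sum_of_subset_of_nonneg (Finset.filter_subset _ _) ?_).trans ?_
    · intro n _ _
      exact Finset.sum_nonneg fun t _ => hnn t n
    · rw [Finset.sum_comm]
      refine Finset.sum_le_sum fun t _ => ?_
      rw [Finset.sum_filter]
  -- the two averages
  set s1 := ∑ t ∈ Tt.filter (fun t => ¬ Bt t), Sg h W t with hs1
  set s2 := ∑ t ∈ Tt.filter (fun t => ¬ ¬ Bt t), Sg h W t with hs2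
  have hs1le : s1 ≤ Cs * d * (D0 * ρ) := by
    have h1 := hSc d D0 v hd
    have h2 : s1 ≤ ∑ t ∈ (range ((k - 1) * d)).filter
        (fun t => ¬ d ∣ t ∧ ∀ p : ℕ, p.Prime → D0 ≤ p → p ∣ d → ¬ p ∣ v + t),
        Sg (fun i : Fin k => (i : ℕ) * d) d t := by
      calc s1 ≤ ∑ t ∈ Tt.filter (fun t => ¬ Bt t), Sg h d t :=
            Finset.sum_le_sum fun t _ => Sg_anti h hdW
        _ ≤ _ := by
            apply Finset.sum_le_sum_of_subset_of_nonneg
            · intro t ht
              rw [mem_filter, hTt, mem_filter] at ht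
              rw [mem_filter]
              exact ⟨ht.1.1, ht.1.2, fun p hp hpD hpd hpv =>
                ht.2 ⟨p, hp, by omega, hdW p hp hpd, hpv⟩⟩
            · intro t _ _
              exact Sg_nonneg h d t
    refine h2.trans (h1.trans ?_)
    apply mul_le_mul_of_nonneg_left _ (by positivity)
    exact density_le (by omega) hS.W_pos hd hpW
  have hs2le : s2 ≤ Ca * k * d := by
    have hY : 1 ≤ (k - 1) * d := Nat.mul_pos (by omega) hd
    have h1 := hSa ((k - 1) * d) h hY (fun i => Nat.mul_le_mul_right d (by omega))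
    calc s2 ≤ ∑ j ∈ (range ((k - 1) * d + 1)).filter (fun j => ∀ i, h i ≠ j),
          ∏ p ∈ (∏ i, ((h i : ℤ) - j).natAbs).primeFactors, (1 + 1 / (p : ℝ)) := by
          refine (Finset.sum_le_sum fun t _ => Sg_le_full h W t).trans ?_
          apply Finset.sum_le_sum_of_subset_of_nonneg
          · intro t ht
            rw [mem_filter] at ht
            have h2 := hne t ht.1
            rw [hTt, mem_filter, mem_range] at ht
            rw [mem_filter, mem_range]
            exact ⟨by omega, h2⟩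
          · intro t _ _
            exact Finset.prod_nonneg fun p _ => by positivity
      _ ≤ Ca * ((k - 1) * d : ℕ) := h1
      _ ≤ Ca * (k * d) := by
          apply mul_le_mul_of_nonneg_left _ hCa.le
          have h3 : (k - 1) * d ≤ k * d := Nat.mul_le_mul_right d (by omega)
          exact_mod_cast h3
      _ = Ca * k * d := by ring
  have hsplit : ∑ t ∈ Tt, (if ¬ Bt t then G1 else G2) * Sg h W t =
      G1 * s1 + G2 * s2 := by
    rw [← Finset.sum_filter_add_sum_filter_not Tt (fun t => ¬ Bt t), hs1, hs2,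
      Finset.mul_sum, Finset.mul_sum]
    congr 1
    · refine Finset.sum_congr rfl fun t ht => ?_
      rw [if_pos (mem_filter.1 ht).2]
    · refine Finset.sum_congr rfl fun t ht => ?_
      rw [if_neg (mem_filter.1 ht).2]
  have hTcard : (Tt.card : ℝ) ≤ k * Real.log x := by
    have h1 : Tt.card ≤ (k - 1) * d := by
      rw [hTt]
      exact (Finset.card_filter_le _ _).trans (by rw [card_range])
    have h2 : (k - 1) * d ≤ k * d := Nat.mul_le_mul_right d (by omega)
    have h3 : (Tt.card : ℝ) ≤ k * d := by exact_mod_cast h1.trans h2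
    exact h3.trans (mul_le_mul_of_nonneg_left hdx hkr.le)
  have hρ1 : 1 / ρ ≤ 4 * LL := by
    have h1 := hRho W hS.W_pos
    have h2 : 1 / ρ = (W : ℝ) / W.totient := by
      rw [hρ, one_div_div]
    have h3 : Real.log W ≤ 2 * LL := by
      have h4 := Real.log_le_log hWr hW2
      rw [Real.log_pow] at h4
      push_cast at h4
      exact h4
    have h5 : (1 : ℝ) / 2 < Real.log 2 := by
      have := Real.log_two_gt_d9
      linarith
    have h6 : Real.log W / Real.log 2 ≤ 3 * LL := by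
      rw [div_le_iff₀ (by linarith)]
      have h7 := Real.log_two_gt_d9
      nlinarith
    rw [h2]
    linarith
  have hVge : c * ρ * (Real.log x / 82) ≤ V := by
    refine le_trans ?_ hV
    apply mul_le_mul_of_nonneg_left _ (by positivity)
    rw [div_le_iff₀ (by norm_num)]
    linarith
  have hq2 : G2 * (4 * LL) ≤ 4 * (36 ^ j * LL ^ j) := by
    rw [hG2]
    split_ifs with hr1
    · rw [zero_mul]
      positivity
    · obtain ⟨m, hm⟩ : ∃ m, j = m + 1 := ⟨j - 1, by omega⟩
      have h1 : j - 1 = m := by omega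
      rw [h1, hm]
      calc (36 * LL) ^ m * (4 * LL) = 4 * (36 ^ m * LL ^ (m + 1)) := by
            rw [mul_pow, pow_succ]
            ring
        _ ≤ 4 * (36 ^ (m + 1) * LL ^ (m + 1)) := by
            gcongr
            · norm_num
            · omega
  have hfin := inter_num (S := Sv K J W x) (d := (d : ℝ)) hCb hrr hc hCs hD0r hCa hkr hS0 hVge hρ0
    hlx hdr hG10 hG20 (le_of_eq (by rw [hG1, mul_pow])) hq2 hρ1 hs1le hs2le (by positivity)
  calc ∑ n ∈ (NS x W v).filter (InterG k d j δ), uv h K J W x n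
      ≤ ∑ t ∈ Tt, (2 * Cb * r * Sv K J W x / V *
          ((if ¬ Bt t then G1 else G2) * Sg h W t) + err) :=
        hcov.trans (Finset.sum_le_sum hone)
    _ = 2 * Cb * r * Sv K J W x / V * (G1 * s1 + G2 * s2) + Tt.card * err := by
        rw [Finset.sum_add_distrib, ← Finset.mul_sum, hsplit, Finset.sum_const, nsmul_eq_mul]
    _ ≤ 164 * Cb * r / c * (Cs * D0 + 4 * Ca * k) * (36 ^ j * LL ^ j) * d /
          Real.log x * Sv K J W x + 1 := by
        apply add_le_add hfin
        calc (Tt.card : ℝ) * err ≤ k * Real.log x * err :=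
              mul_le_mul_of_nonneg_right hTcard herr0
          _ ≤ 1 := e10
    _ = _ := by ring

end Pool.Agent.Helper66.PU
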