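import Pool.Agent.Helper66.PU.FinalG
import Pool.Agent.Helper66.PU.InterG
import Pool.Agent.Helper66.PU.All0

/-!
# Project PU: the sum over all classes, for an arbitrary rare set
-/

set_option autoImplicit false

open Finset Filter
open ArithmeticFunction (cardFactors)

namespace Pool.Agent.Helper66.PU

open Pool.Agent.Helper1.MT
open Pool.Agent.Helper66.PV
open Pool.Agent.Helper66.PAP (cardFactors_le)

/-- The rare set of the `n` with an intermediate integer that has few small prime factors. -/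
theorem rareHyp_of (h : InterSumG) {k : ℕ} (hk : 1 ≤ k) (j : ℕ) {δ : ℝ} (hδ : 0 < δ) :
    RareHyp k j (fun d n => InterG k d j δ n) := by
  intro D0 K J hD
  obtain ⟨C, X0, hC, hX0⟩ := h k D0 j δ K J (9 / 40) hk hD hδ (by norm_num)
  refine ⟨C, X0, hC, fun x hx d W v hd hdx hS hpW hW2 hG hV _ => ?_⟩
  have h1 := hX0 x hx d W v hd hdx hS (by rwa [Real.rpow_two] at hW2) hpW (1 / 10) (2 / D0) hG
    (by rw [mul_assoc]; exact hV)
  have h2 : C * (d * Real.log (Real.log x) ^ j / Real.log x) * Sv K J W x + 1 =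
      C * d * Real.log (Real.log x) ^ j / Real.log x * Sv K J W x + 1 := by ring
  rw [h2]
  exact h1

/-- `n` is good: the `n + i d` have at most `R₀` prime factors, those larger than `k` are larger
than `n ^ δ`, at least `c log k` of the `n + i d` are primes, and `T d n` does not hold. -/
structure GoodT (T : ℕ → ℕ → Prop) (c : ℝ) (k d R₀ : ℕ) (δ : ℝ) (n : ℕ) : Prop where
  few : ∀ i < k, cardFactors (n + i * d) ≤ R₀
  big : ∀ i < k, ∀ p : ℕ, p.Prime → p ∣ n + i * d → p ≤ k ∨ (n : ℝ) ^ δ < p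
  inter : ¬ T d n
  primes : c * Real.log k ≤ (((range k).filter (fun i => (n + i * d).Prime)).card : ℝ)

theorem main_allG (hI : IntervalSumU) (hWt : WeightU) (hIk : IkCard) (hN2 : SumPrimeNU)
    (hA : OneDimW) (hCl : ClassesU) (hRare : RareSumU) :
    ∃ c C₀ : ℝ, 0 < c ∧ 0 < C₀ ∧ ∀ k : ℕ, 1 ≤ k → ∃ (R₀ : ℕ) (δ : ℝ), 0 < R₀ ∧
      (R₀ : ℝ) ≤ C₀ * Real.log (k + 1) ∧ 0 < δ ∧ 1 ≤ C₀ * (k : ℝ) ^ 3 * δ ∧
      ∀ (j : ℕ) (T : ℕ → ℕ → Prop), RareHyp k j T → ∃ C : ℝ, 0 < C ∧ ∃ X0 : ℝ, ∀ x : ℝ, X0 ≤ x → ∀ d : ℕ, 0 < d →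
        (d : ℝ) ≤ C * Real.log x / Real.log (Real.log x) ^ j →
        ∀ [DecidablePred (GoodT T c k d R₀ δ)],
        C * ((d : ℝ) / d.totient) ^ (k - 1) * Real.log x / Real.log x ^ k ≤
          ∑ n ∈ (Ioc ⌊x ^ (1 / 2 : ℝ)⌋₊ ⌊x⌋₊).filter (GoodT T c k d R₀ δ), 1 / (n : ℝ) := by
  classical
  obtain ⟨c, C₀, hc, hC₀, hmain⟩ := main_classG hI hWt hIk hN2 hA hRare
  refine ⟨c, C₀ + 9, hc, by positivity, fun k hk => ?_⟩
  obtain ⟨r, D0, δ, hD0, hr', hδ, hδ', hk2⟩ := hmain k hk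
  have hkr : (1 : ℝ) ≤ k := by exact_mod_cast hk
  have hlog2 : 1 / 2 ≤ Real.log (k + 1) := by
    have h1 : Real.log 2 ≤ Real.log ((k : ℝ) + 1) := Real.log_le_log (by norm_num) (by linarith)
    have h2 := Real.log_two_gt_d9
    linarith
  have hR0 : ((r + ⌈5 / 2 * Real.log (2 * k)⌉₊ + 1 : ℕ) : ℝ) ≤ (C₀ + 9) * Real.log (k + 1) := by
    have h0 : 0 ≤ Real.log (2 * k) := Real.log_nonneg (by linarith)
    have h1 := (Nat.ceil_lt_add_one (show 0 ≤ 5 / 2 * Real.log (2 * k) by positivity)).le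
    have h2 : Real.log (2 * k) ≤ 2 * Real.log (k + 1) := by
      have h3 : Real.log (2 * k) ≤ Real.log (((k : ℝ) + 1) ^ 2) :=
        Real.log_le_log (by positivity) (by nlinarith)
      rw [Real.log_pow] at h3
      exact_mod_cast h3
    push_cast
    linarith
  refine ⟨r + ⌈5 / 2 * Real.log (2 * k)⌉₊ + 1, δ, by omega, hR0, hδ, ?_, fun j T hT => ?_⟩
  · refine hδ'.trans ?_
    gcongr
    linarith
  set R₀ := r + ⌈5 / 2 * Real.log (2 * k)⌉₊ + 1 with hR₀
  obtain ⟨W0, hW0, hcl⟩ := hCl k D0 hk hD0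
  have hW0r : (0 : ℝ) < W0 := by exact_mod_cast hW0
  have hW01 : (1 : ℝ) ≤ W0 := by exact_mod_cast hW0
  have hφ0 : (0 : ℝ) < W0.totient := by exact_mod_cast Nat.totient_pos.2 hW0
  set θ : ℝ := (W0.totient : ℝ) / W0 with hθ
  have hθ0 : 0 < θ := by positivity
  have hθ1 : θ ≤ 1 := by
    rw [hθ, div_le_one hW0r]
    exact_mod_cast Nat.totient_le W0
  obtain ⟨C, hC, X1, hX1⟩ := hk2 j W0 T hT hW0
  obtain ⟨X0, hX0⟩ := eventually_atTop.1 ((eventually_ge_atTop X1).and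
    ((eventually_gt_atTop 1).and
    ((Real.tendsto_log_atTop.comp Real.tendsto_log_atTop).eventually_ge_atTop 0)))
  refine ⟨C / W0 * θ ^ (k - 1), by positivity, X0, fun x hx d hd hdx _ => ?_⟩
  obtain ⟨e1, e2, e3⟩ := hX0 x hx
  simp only [Function.comp_apply] at e3
  have hlogx : 0 < Real.log x := Real.log_pos e2
  obtain ⟨d', V, hd'd, hd', hco, hS, hpW, hV, hVcard, hVprop⟩ := hcl d hd
  have hdr : (0 : ℝ) < d := by exact_mod_cast hd
  have hd'r : (0 : ℝ) < d' := by exact_mod_cast hd'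
  have hφd : (0 : ℝ) < d.totient := by exact_mod_cast Nat.totient_pos.2 hd
  have hφd' : (0 : ℝ) < d'.totient := by exact_mod_cast Nat.totient_pos.2 hd'
  have hfactor : (θ * ((d : ℝ) / d.totient)) ^ (k - 1) ≤ ((d' : ℝ) / d'.totient) ^ (k - 1) := by
    rcases Nat.lt_or_ge 1 k with hk1 | hk1
    · apply pow_le_pow_left₀ (by positivity)
      have h1 : ∀ p : ℕ, p.Prime → p ∣ d → p ∣ W0 * d' := by
        intro p hp hpd
        refine hS.diff ⟨1, hk1⟩ ⟨0, by omega⟩ (by simp) p hp ?_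
        simpa using Int.natCast_dvd_natCast.2 hpd
      have h2 := totient_div_anti hd (Nat.mul_pos hW0 hd') h1
      have h3 : ((W0 * d').totient : ℝ) / (W0 * d' : ℕ) =
          (W0.totient : ℝ) / W0 * ((d'.totient : ℝ) / d') := by
        rw [Nat.totient_mul hco]
        push_cast
        field_simp
      rw [h3, ← hθ, mul_div_assoc', div_le_div_iff₀ hd'r hdr] at h2
      rw [mul_div_assoc', div_le_div_iff₀ hφd hφd']
      linarith
    · have h1 : k - 1 = 0 := by omega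
      rw [h1, pow_zero, pow_zero]
  refine le_trans (le_of_eq_of_le ?_ (mul_le_mul_of_nonneg_left hfactor
    (show 0 ≤ C / W0 * Real.log x / Real.log x ^ k by positivity))) (le_of_eq_of_le ?_
    (sum_classes hk hW0 hd' hco e2 hC hV hVcard fun v hv => ?_))
  · rw [mul_pow]
    ring
  · ring
  obtain ⟨hcop, hfac⟩ := hVprop v hv
  refine hX1 x e1 d d' v hd hd' (Nat.le_of_dvd hd hd'd) ?_ hS hpW hcop _ fun n hn hgood hint => ?_
  · refine hdx.trans ?_
    apply div_le_div_of_nonneg_right _ (pow_nonneg e3 _)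
    apply mul_le_mul_of_nonneg_right _ hlogx.le
    exact (mul_le_of_le_one_right (by positivity) (pow_le_one₀ hθ0.le hθ1)).trans
      (div_le_self hC.le hW01)
  have hmod : n ≡ v [MOD (W0 * d')] := NS_mod hn
  have hn0 : 0 < n := by
    unfold NS at hn
    rw [mem_filter, mem_Ioc] at hn
    omega
  have hfac := hfac n hn0 hmod
  obtain ⟨hfew, hbig, hnp⟩ := hgood
  refine ⟨fun i hi => ?_, fun i hi p hp hpd => ?_, hint, hnp.trans ?_⟩
  · obtain ⟨g, m, hgm, hg0, hg, hgp, hm⟩ := hfac ⟨i, hi⟩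
    have h1 := cardFactors_mul_le hk hgm (by omega) hg hm
    have h2 := hfew ⟨i, hi⟩
    simp only at h1 h2
    omega
  · by_cases hpW : p ∣ W0 * d'
    · left
      obtain ⟨g, m, hgm, hg0, hg, hgp, hm⟩ := hfac ⟨i, hi⟩
      simp only at hgm
      rw [hgm] at hpd
      rcases (hp.dvd_mul).1 hpd with h1 | h1
      · exact hgp p hp h1
      · exfalso
        have h2 : p ∣ Nat.gcd m (W0 * d') := Nat.dvd_gcd h1 hpW
        rw [hm] at h2
        exact hp.one_lt.ne' (Nat.dvd_one.1 h2)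
    · exact Or.inr (hbig ⟨i, hi⟩ p hp hpd hpW)
  · have h1 : npI (fun i : Fin k => (i : ℕ) * d) (Ik k) n ≤
        ((range k).filter (fun i => (n + i * d).Prime)).card := by
      unfold npI
      rw [← Finset.card_map Fin.valEmbedding]
      apply Finset.card_le_card
      intro i hi
      rw [Finset.mem_map] at hi
      obtain ⟨j, hj, rfl⟩ := hi
      rw [mem_filter] at hj ⊢
      exact ⟨mem_range.2 j.2, hj.2⟩
    exact_mod_cast h1

end Pool.Agent.Helper66.PU
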