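import Mathlib

/-!
# Project PU: `W / φ(W)` is at most `1 + 2 log W`
-/

set_option autoImplicit false

open Finset Filter

namespace Pool.Agent.Helper66.PU

theorem prod_div_le (S : Finset ℕ) (hS : ∀ n ∈ S, 2 ≤ n) :
    ∏ n ∈ S, ((n : ℝ) / ((n : ℝ) - 1)) ≤ S.card + 1 := by
  induction S using Finset.induction_on_max with
  | empty => simp
  | insert a S ha ih =>
    have hna : a ∉ S := fun h => lt_irrefl _ (ha a h)
    have h1 := ih fun n hn => hS n (mem_insert_of_mem hn)
    rw [prod_insert hna, card_insert_of_notMem hna]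
    have ha2 : 2 ≤ a := hS a (mem_insert_self _ _)
    have hcard : S.card + 2 ≤ a := by
      have h2 : S ⊆ Ico 2 a := by
        intro n hn
        rw [mem_Ico]
        exact ⟨hS n (mem_insert_of_mem hn), ha n hn⟩
      have h3 := card_le_card h2
      rw [Nat.card_Ico] at h3
      omega
    have har : ((S.card : ℕ) : ℝ) + 2 ≤ a := by exact_mod_cast hcard
    have hc0 : (0 : ℝ) ≤ S.card := Nat.cast_nonneg _
    have h4 : (a : ℝ) / ((a : ℝ) - 1) ≤ (S.card + 2) / (S.card + 1) := by
      rw [div_le_div_iff₀ (by linarith) (by linarith)]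
      nlinarith
    have h5 : 0 ≤ ∏ n ∈ S, ((n : ℝ) / ((n : ℝ) - 1)) := by
      apply prod_nonneg
      intro n hn
      have : (2 : ℝ) ≤ n := by exact_mod_cast hS n (mem_insert_of_mem hn)
      exact div_nonneg (by linarith) (by linarith)
    calc (a : ℝ) / ((a : ℝ) - 1) * ∏ n ∈ S, ((n : ℝ) / ((n : ℝ) - 1))
        ≤ (S.card + 2) / (S.card + 1) * (S.card + 1) :=
          mul_le_mul h4 h1 h5 (by positivity)
      _ = ((S.card + 1 : ℕ) : ℝ) + 1 := by
          rw [div_mul_cancel₀ _ (by linarith)]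
          push_cast
          ring

theorem div_totient_le {W : ℕ} (hW : 0 < W) :
    (W : ℝ) / W.totient ≤ 1 + 2 * Real.log W := by
  have hWr : (0 : ℝ) < W := by exact_mod_cast hW
  have h1 : (W.totient : ℝ) = W * ∏ p ∈ W.primeFactors, (1 - (p : ℝ)⁻¹) := by
    have h2 := Nat.totient_eq_mul_prod_factors W
    have := congrArg (Rat.cast : ℚ → ℝ) h2
    push_cast at this
    exact this
  have h2 : (W : ℝ) / W.totient = ∏ p ∈ W.primeFactors, ((p : ℝ) / ((p : ℝ) - 1)) := by
    have h3 : ∏ p ∈ W.primeFactors, ((p : ℝ) / ((p : ℝ) - 1)) =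
        (∏ p ∈ W.primeFactors, (1 - (p : ℝ)⁻¹))⁻¹ := by
      rw [← prod_inv_distrib]
      apply prod_congr rfl
      intro p hp
      have h4 : (2 : ℝ) ≤ p := by exact_mod_cast (Nat.prime_of_mem_primeFactors hp).two_le
      have h5 : (p : ℝ) ≠ 0 := by linarith
      have h6 : (p : ℝ) - 1 ≠ 0 := by linarith
      have h7 : 1 - (p : ℝ)⁻¹ = ((p : ℝ) - 1) / p := by field_simp
      rw [h7, inv_div]
    rw [h3, h1, div_mul_eq_div_div, div_self hWr.ne', one_div]
  rw [h2]
  refine (prod_div_le _ fun p hp => (Nat.prime_of_mem_primeFactors hp).two_le).trans ?_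
  have h3 : 2 ^ W.primeFactors.card ≤ W := by
    calc 2 ^ W.primeFactors.card = ∏ _p ∈ W.primeFactors, 2 := by rw [prod_const]
      _ ≤ ∏ p ∈ W.primeFactors, p :=
          prod_le_prod' fun p hp => (Nat.prime_of_mem_primeFactors hp).two_le
      _ ≤ W := Nat.le_of_dvd hW (Nat.prod_primeFactors_dvd W)
  have h4 : (W.primeFactors.card : ℝ) * Real.log 2 ≤ Real.log W := by
    rw [← Real.log_pow]
    apply Real.log_le_log (by positivity)
    exact_mod_cast h3
  have h5 := Real.log_two_gt_d9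
  have h6 : (0 : ℝ) ≤ W.primeFactors.card := Nat.cast_nonneg _
  nlinarith

/-- Powers of `log log x` are small against `log x`. -/
theorem loglog_small (n : ℕ) (A a : ℝ) (hA : 0 ≤ A) (ha : 0 ≤ a) {b : ℝ} (hb : 0 < b) :
    ∀ᶠ x : ℝ in atTop, a * (1 + A * Real.log (Real.log x)) ^ n ≤ b * Real.log x := by
  have h1 : ∀ᶠ y : ℝ in atTop, a * (1 + A * Real.log y) ^ n ≤ b * y := by
    have h2 := (Real.isLittleO_pow_log_id_atTop (n := n)).bound
      (show (0 : ℝ) < b / (a * (1 + A) ^ n + 1) by positivity)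
    filter_upwards [h2, Real.tendsto_log_atTop.eventually_ge_atTop 1, eventually_gt_atTop 0]
      with y hy hy1 hy0
    simp only [id, Real.norm_eq_abs] at hy
    rw [abs_of_nonneg (by positivity : 0 ≤ Real.log y ^ n), abs_of_pos hy0] at hy
    have h3 : 1 + A * Real.log y ≤ (1 + A) * Real.log y := by nlinarith
    have h4 : 0 ≤ 1 + A * Real.log y := by positivity
    calc a * (1 + A * Real.log y) ^ n ≤ a * ((1 + A) * Real.log y) ^ n :=
          mul_le_mul_of_nonneg_left (pow_le_pow_left₀ h4 h3 n) ha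
      _ = a * (1 + A) ^ n * Real.log y ^ n := by rw [mul_pow]; ring
      _ ≤ (a * (1 + A) ^ n + 1) * Real.log y ^ n := by
          have : 0 ≤ Real.log y ^ n := by positivity
          nlinarith
      _ ≤ (a * (1 + A) ^ n + 1) * (b / (a * (1 + A) ^ n + 1) * y) :=
          mul_le_mul_of_nonneg_left hy (by positivity)
      _ = b * y := by field_simp
  exact Real.tendsto_log_atTop.eventually h1

end Pool.Agent.Helper66.PU
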