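import Pool.Agent.Helper66.PU.Bounds
import Pool.Agent.Helper66.PU.Tot
import Pool.Agent.Helper66.PV.Bad0

/-!
# Project PU: the `n` for which some `n + h i` has a small prime factor, uniformly
-/

set_option autoImplicit false

open Finset Filter

namespace Pool.Agent.Helper66.PU

open Pool.Agent.Helper1.MT
open Pool.Agent.Helper66.PV
open Pool.Agent.Helper66.PAP (BadAt sum_log_small sum_inv_small card_PS_le)

/-- The `n` with small prime factors contribute little. -/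
theorem bad_sumU (hI : IntervalSumU) (hE : Expand) {κ : Type} [Fintype κ]
    [DecidableEq κ] {K J : κ → ℕ} {D0 : ℕ} {c1 ε KM A : ℝ}
    (hK0 : ∀ i, 0 < K i) (hJ : ∀ i, 10 * 2 ^ J i ≤ 8 * K i * (J i + 2))
    (hD : (Fintype.card κ + 2) ^ 10 ≤ D0) (hKM : ∀ i, Kp (K i) (J i) ≤ KM) (hε : 0 < ε)
    (hA : 1 ≤ A) :
    ∃ X0 : ℝ, ∀ x : ℝ, X0 ≤ x → ∀ (I : Finset κ) (h : κ → ℕ) (W v : ℕ), SetN D0 h W →
      (W : ℝ) ≤ Real.log x ^ A → SieveAtV c1 K J I D0 h W v x →
      ∀ [DecidablePred (BadAt h W ε x)],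
      ∑ n ∈ (NS x W v).filter (BadAt h W ε x), uv h K J W x n ≤
        (36 * Fintype.card κ * KM * ε + 4 * (Fintype.card κ : ℝ) ^ 3 / D0) * Sv K J W x + 1 := by
  obtain ⟨C, hC, hC'⟩ := hI
  obtain ⟨Cm, hCm, hCm'⟩ := sum_log_small
  obtain ⟨C2, hC2, hC2'⟩ := sum_inv_small
  set k := Fintype.card κ with hk
  have hKr : ∀ i, (0 : ℝ) < K i := fun i => by exact_mod_cast hK0 i
  have hKp : ∀ i, 0 < Kp (K i) (J i) := fun i => by
    have := hKr i
    unfold Kp
    positivity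
  -- large x
  have hll := loglog_small 4 (2 * A) (Cm + C * (1 + C2)) (by linarith) (by positivity)
    (show 0 < ε / 82 by positivity)
  have hx1 : ∀ᶠ x : ℝ in atTop, 4 * Real.exp (4 * k) ^ 2 * x ^ (1 / 50 : ℝ) ≤
      x ^ (53 / 162 : ℝ) := by
    have h1 : Tendsto (fun x : ℝ => x ^ (53 / 162 - 1 / 50 : ℝ)) atTop atTop :=
      tendsto_rpow_atTop (by norm_num)
    filter_upwards [h1.eventually_ge_atTop (4 * Real.exp (4 * k) ^ 2), eventually_gt_atTop 0]
      with x hx hx0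
    calc 4 * Real.exp (4 * k) ^ 2 * x ^ (1 / 50 : ℝ) ≤
          x ^ (53 / 162 - 1 / 50 : ℝ) * x ^ (1 / 50 : ℝ) :=
          mul_le_mul_of_nonneg_right hx (by positivity)
      _ = x ^ (53 / 162 : ℝ) := by rw [← Real.rpow_add hx0]; norm_num
  have hx2 : ∀ᶠ x : ℝ in atTop, Real.log x ^ A * x ^ (1 / 81 : ℝ) ≤ x ^ (23 / 54 : ℝ) := by
    filter_upwards [log_rpow_le (A := A) (show (0 : ℝ) < 23 / 54 - 1 / 81 by norm_num),
      eventually_gt_atTop 0] with x hx hx0
    calc Real.log x ^ A * x ^ (1 / 81 : ℝ) ≤ x ^ (23 / 54 - 1 / 81 : ℝ) * x ^ (1 / 81 : ℝ) :=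
          mul_le_mul_of_nonneg_right hx (by positivity)
      _ = x ^ (23 / 54 : ℝ) := by rw [← Real.rpow_add hx0]; norm_num
  have hx3 : ∀ᶠ x : ℝ in atTop, (2 * k : ℝ) * x ^ (1 / 81 : ℝ) ≤ x ^ (1 / 50 : ℝ) := by
    have h1 : Tendsto (fun x : ℝ => x ^ (1 / 50 - 1 / 81 : ℝ)) atTop atTop :=
      tendsto_rpow_atTop (by norm_num)
    filter_upwards [h1.eventually_ge_atTop (2 * k : ℝ), eventually_gt_atTop 0] with x hx hx0
    calc (2 * k : ℝ) * x ^ (1 / 81 : ℝ) ≤ x ^ (1 / 50 - 1 / 81 : ℝ) * x ^ (1 / 81 : ℝ) :=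
          mul_le_mul_of_nonneg_right hx (by positivity)
      _ = x ^ (1 / 50 : ℝ) := by rw [← Real.rpow_add hx0]; norm_num
  obtain ⟨X0, hX0⟩ := eventually_atTop.1
    (hll.and (hx1.and (hx2.and (hx3.and
      (Real.tendsto_log_atTop.eventually_ge_atTop (1 : ℝ))))))
  refine ⟨X0, fun x hx I h W v hS hWA hF _ => ?_⟩
  obtain ⟨e1, e3, e4, e5, e6⟩ := hX0 x hx
  have hWr : (0 : ℝ) < W := by exact_mod_cast hS.W_pos
  have hW1 : (1 : ℝ) ≤ W := by exact_mod_cast hS.W_pos
  have hφ : (0 : ℝ) < W.totient := by exact_mod_cast Nat.totient_pos.2 hS.W_pos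
  set ρ : ℝ := (W.totient : ℝ) / W with hρ
  have hρ0 : 0 < ρ := by positivity
  have hlW0 : 0 ≤ Real.log W := Real.log_nonneg hW1
  set ll : ℝ := 1 + 2 * A * Real.log (Real.log x) with hlldef
  have hllx : 0 ≤ Real.log (Real.log x) := Real.log_nonneg e6
  have hlW : Real.log W ≤ A * Real.log (Real.log x) := by
    have h1 := Real.log_le_log hWr hWA
    rwa [Real.log_rpow (by linarith)] at h1
  have hAll : 0 ≤ A * Real.log (Real.log x) := by positivity
  have hll1 : 1 ≤ ll := by rw [hlldef]; nlinarith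
  have hinv : (W : ℝ) / W.totient ≤ ll := by
    refine (div_totient_le hS.W_pos).trans ?_
    rw [hlldef]
    nlinarith
  have hinv0 : 0 ≤ (W : ℝ) / W.totient := by positivity
  have hρinv : ρ * ((W : ℝ) / W.totient) = 1 := by rw [hρ]; field_simp
  set CW : ℝ := C * ((W : ℝ) / W.totient) * (1 + Real.log W) with hCW
  have hCW0 : 0 ≤ CW := by positivity
  set R := lev x with hR
  have hR3 := hF.R3
  have hx0 : (0 : ℝ) < x := by linarith [hF.x9]
  have hlogx : 0 < Real.log x := Real.log_pos (by linarith [hF.x9])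
  have hRr : (3 : ℝ) ≤ R := by exact_mod_cast hR3
  have hlogR : 0 < Real.log R := Real.log_pos (by linarith)
  set L : ℝ := x ^ (1 / 50 : ℝ) with hL
  have hL0 : 0 < L := by positivity
  set B : κ → ℝ := Bv K J W x with hB
  have hB1 : ∀ i, 1 ≤ B i := hF.Bone
  have hB0 : ∀ i, 0 < B i := fun i => by linarith [hB1 i]
  set P := ∏ j, B j with hP
  have hP0 : 0 < P := Finset.prod_pos fun j _ => hB0 j
  set G := univ.filter (fun q : PS R W => tp R W q ≤ ε) with hG
  refine (bad_union h K J W v ε x).trans ?_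
  -- one prime
  have hone : ∀ q ∈ G, ∀ i : κ,
      ∑ n ∈ (NS x W v).filter (fun n => (q : ℕ) ∣ n + h i), uv h K J W x n ≤
      Real.log x / (2 * W) * (4 * ((ρ * Real.log (q : ℕ) + CW) / ((q : ℕ) : ℝ)) *
        (∏ j ∈ univ.erase i, B j) + 2 * (k : ℝ) ^ 2 * wp R W q ^ 2 * P) + 1 / L := by
    intro q _ i
    obtain ⟨H1, H2⟩ := hC' W hS.W_pos R hR3 q
    have hWq : ((W * (q : ℕ) : ℕ) : ℝ) ≤ x ^ (23 / 54 : ℝ) := by
      push_cast
      refine le_trans ?_ e4
      have h1 : ((q : ℕ) : ℝ) ≤ R := by exact_mod_cast PS_le q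
      have h2 := hF.Rx
      exact mul_le_mul hWA (h1.trans h2) (Nat.cast_nonneg _) (by positivity)
    exact one_prime hE hS hD hF hL0 e3 q hWq H1 (fun j => H2 (K j) (J j) (hK0 j) (hJ j)) i
  rw [Finset.sum_comm]
  -- one shift
  have hshift : ∀ i : κ, ∑ q ∈ G,
        ∑ n ∈ (NS x W v).filter (fun n => (q : ℕ) ∣ n + h i), uv h K J W x n ≤
      Real.log x / (2 * W) * ((36 * KM * ε + 4 * (k : ℝ) ^ 2 / D0) * P) + G.card * (1 / L) := by
    intro i
    set P' := ∏ j ∈ univ.erase i, B j with hP'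
    have hP'0 : 0 < P' := Finset.prod_pos fun j _ => hB0 j
    refine (Finset.sum_le_sum fun q hq => hone q hq i).trans ?_
    have hsum2 : ∑ q ∈ G, (Real.log x / (2 * W) *
        (4 * ((ρ * Real.log (q : ℕ) + CW) / ((q : ℕ) : ℝ)) * P' +
        2 * (k : ℝ) ^ 2 * wp R W q ^ 2 * P) + 1 / L) =
      (Real.log x / (2 * W)) * (4 * P' *
        (ρ * ∑ q ∈ G, Real.log (q : ℕ) / ((q : ℕ) : ℝ) + CW * ∑ q ∈ G, 1 / ((q : ℕ) : ℝ)) +
        2 * (k : ℝ) ^ 2 * P * ∑ q ∈ G, wp R W q ^ 2) + G.card * (1 / L) := by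
      rw [Finset.sum_add_distrib, Finset.sum_const, nsmul_eq_mul,
        ← Finset.mul_sum, Finset.sum_add_distrib]
      have s1 : ∑ q ∈ G, 4 * ((ρ * Real.log (q : ℕ) + CW) / ((q : ℕ) : ℝ)) * P' =
          4 * P' * (ρ * ∑ q ∈ G, Real.log (q : ℕ) / ((q : ℕ) : ℝ) +
            CW * ∑ q ∈ G, 1 / ((q : ℕ) : ℝ)) := by
        rw [Finset.mul_sum, Finset.mul_sum, ← Finset.sum_add_distrib, Finset.mul_sum]
        refine Finset.sum_congr rfl fun q _ => ?_
        ring
      have s2 : ∑ q ∈ G, 2 * (k : ℝ) ^ 2 * wp R W q ^ 2 * P =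
          2 * (k : ℝ) ^ 2 * P * ∑ q ∈ G, wp R W q ^ 2 := by
        rw [Finset.mul_sum]
        refine Finset.sum_congr rfl fun q _ => ?_
        ring
      rw [s1, s2]
    rw [hsum2]
    -- the sums over q
    have t1 : ∑ q ∈ G, Real.log (q : ℕ) / ((q : ℕ) : ℝ) ≤ ε * Real.log R + Cm :=
      hCm' R W ε hR3 hε.le
    have t2 : ∑ q ∈ G, 1 / ((q : ℕ) : ℝ) ≤ Real.log (Real.log R) + C2 := by
      refine le_trans ?_ (hC2' R W hR3)
      apply Finset.sum_le_sum_of_subset_of_nonneg (Finset.filter_subset _ _)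
      intro q _ _
      positivity
    have t3 : ∑ q ∈ G, wp R W q ^ 2 ≤ 2 / D0 := by
      refine le_trans ?_ hF.good.sq
      apply Finset.sum_le_sum_of_subset_of_nonneg (Finset.filter_subset _ _)
      intro q _ _
      positivity
    have t5 : ρ * ∑ q ∈ G, Real.log (q : ℕ) / ((q : ℕ) : ℝ) +
        CW * ∑ q ∈ G, 1 / ((q : ℕ) : ℝ) ≤ 2 * ρ * ε * Real.log R := by
      have h1 : ρ * ∑ q ∈ G, Real.log (q : ℕ) / ((q : ℕ) : ℝ) ≤ ρ * (ε * Real.log R + Cm) :=
        mul_le_mul_of_nonneg_left t1 hρ0.le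
      have h2 : CW * ∑ q ∈ G, 1 / ((q : ℕ) : ℝ) ≤ CW * (Real.log (Real.log R) + C2) :=
        mul_le_mul_of_nonneg_left t2 hCW0
      have h3 : Real.log (Real.log R) + C2 ≤ (1 + C2) * ll := by
        have h4 : Real.log (Real.log R) ≤ Real.log (Real.log x) := by
          apply Real.log_le_log hlogR
          apply Real.log_le_log (by linarith)
          refine hF.Rx.trans ?_
          calc x ^ (1 / 81 : ℝ) ≤ x ^ (1 : ℝ) :=
                Real.rpow_le_rpow_of_exponent_le (by linarith [hF.x9]) (by norm_num)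
            _ = x := Real.rpow_one x
        have h5 : Real.log (Real.log x) ≤ A * Real.log (Real.log x) := by nlinarith
        have h6 : 0 ≤ C2 * (2 * A * Real.log (Real.log x)) := by positivity
        rw [hlldef]
        linarith
      have h4 : CW ≤ ρ * (C * ll ^ 3) := by
        have h5 : CW = ρ * (C * (((W : ℝ) / W.totient) ^ 2 * (1 + Real.log W))) := by
          calc CW = C * (ρ * ((W : ℝ) / W.totient)) * ((W : ℝ) / W.totient) *
                (1 + Real.log W) := by rw [hρinv, hCW]; ring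
            _ = _ := by ring
        rw [h5]
        apply mul_le_mul_of_nonneg_left _ hρ0.le
        apply mul_le_mul_of_nonneg_left _ hC.le
        have h6 : 1 + Real.log W ≤ ll := by rw [hlldef]; linarith
        calc ((W : ℝ) / W.totient) ^ 2 * (1 + Real.log W) ≤ ll ^ 2 * ll :=
              mul_le_mul (pow_le_pow_left₀ hinv0 hinv 2) h6 (by linarith) (by positivity)
          _ = ll ^ 3 := by ring
      have h5 : CW * (Real.log (Real.log R) + C2) ≤ ρ * (C * (1 + C2) * ll ^ 4) := by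
        calc CW * (Real.log (Real.log R) + C2) ≤ CW * ((1 + C2) * ll) :=
              mul_le_mul_of_nonneg_left h3 hCW0
          _ ≤ ρ * (C * ll ^ 3) * ((1 + C2) * ll) :=
              mul_le_mul_of_nonneg_right h4 (by positivity)
          _ = _ := by ring
      have h6 : Cm + C * (1 + C2) * ll ^ 4 ≤ ε * Real.log R := by
        have h7 : Cm ≤ Cm * ll ^ 4 := le_mul_of_one_le_right hCm.le (one_le_pow₀ hll1)
        have h8 := hF.logx
        have h9 : ε / 82 * Real.log x ≤ ε * Real.log R := by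
          calc ε / 82 * Real.log x ≤ ε / 82 * (82 * Real.log R) := by gcongr
            _ = _ := by ring
        have h10 : (Cm + C * (1 + C2)) * ll ^ 4 = Cm * ll ^ 4 + C * (1 + C2) * ll ^ 4 := by ring
        linarith
      have h7 := mul_le_mul_of_nonneg_left h6 hρ0.le
      have h8 : ρ * (Cm + C * (1 + C2) * ll ^ 4) =
        ρ * Cm + ρ * (C * (1 + C2) * ll ^ 4) := by ring
      have h9 : 2 * ρ * ε * Real.log R = ρ * (ε * Real.log R) + ρ * (ε * Real.log R) := by ring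
      have h10 : ρ * (ε * Real.log R + Cm) = ρ * (ε * Real.log R) + ρ * Cm := by ring
      linarith
    have hPP : P = P' * B i := by
      rw [hP, hP', mul_comm, Finset.mul_prod_erase univ B (mem_univ i)]
    have hKMi : Kp (K i) (J i) ≤ KM := hKM i
    have hKMp : 0 < KM := lt_of_lt_of_le (hKp i) hKMi
    have t6 : P' * (2 * ρ * ε * Real.log R) ≤ 9 * ε * KM * P := by
      have h1 : ρ * Real.log R ≤ 40 / 9 * Kp (K i) (J i) * B i := by
        have h2 : 9 / 40 / Kp (K i) (J i) * (ρ * Real.log R) ≤ B i := hF.Blow i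
        have h4 := hKp i
        have h3 : ρ * Real.log R = 40 / 9 * Kp (K i) (J i) *
            (9 / 40 / Kp (K i) (J i) * (ρ * Real.log R)) := by
          field_simp
        rw [h3]
        exact mul_le_mul_of_nonneg_left h2 (by positivity)
      have h2 : 2 * ρ * ε * Real.log R ≤ 9 * ε * KM * B i := by
        have h5 := hB0 i
        calc 2 * ρ * ε * Real.log R = 2 * ε * (ρ * Real.log R) := by ring
          _ ≤ 2 * ε * (40 / 9 * Kp (K i) (J i) * B i) := by gcongr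
          _ ≤ 2 * ε * (40 / 9 * KM * B i) := by gcongr
          _ ≤ 9 * ε * KM * B i := by
              have : 0 ≤ ε * KM * B i := by positivity
              nlinarith
      calc P' * (2 * ρ * ε * Real.log R) ≤ P' * (9 * ε * KM * B i) := by gcongr
        _ = _ := by rw [hPP]; ring
    have hlx : 0 ≤ Real.log x / (2 * W) := by positivity
    have t8 : 4 * P' *
          (ρ * ∑ q ∈ G, Real.log (q : ℕ) / ((q : ℕ) : ℝ) + CW * ∑ q ∈ G, 1 / ((q : ℕ) : ℝ)) +
          2 * (k : ℝ) ^ 2 * P * ∑ q ∈ G, wp R W q ^ 2 ≤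
        (36 * KM * ε + 4 * (k : ℝ) ^ 2 / D0) * P := by
      have h1 : 4 * P' *
          (ρ * ∑ q ∈ G, Real.log (q : ℕ) / ((q : ℕ) : ℝ) + CW * ∑ q ∈ G, 1 / ((q : ℕ) : ℝ)) ≤
          4 * (9 * ε * KM * P) := by
        calc 4 * P' * (ρ * ∑ q ∈ G, Real.log (q : ℕ) / ((q : ℕ) : ℝ) +
              CW * ∑ q ∈ G, 1 / ((q : ℕ) : ℝ)) ≤ 4 * P' * (2 * ρ * ε * Real.log R) := by
              gcongr
          _ = 4 * (P' * (2 * ρ * ε * Real.log R)) := by ring
          _ ≤ _ := by gcongr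
      have h2 : 2 * (k : ℝ) ^ 2 * P * ∑ q ∈ G, wp R W q ^ 2 ≤
          2 * (k : ℝ) ^ 2 * P * (2 / D0) := by gcongr
      calc _ ≤ 4 * (9 * ε * KM * P) + 2 * (k : ℝ) ^ 2 * P * (2 / D0) := add_le_add h1 h2
        _ = _ := by ring
    gcongr
  have t4 : k * ((G.card : ℝ) * (1 / L)) ≤ 1 := by
    have h1 : (G.card : ℝ) ≤ R + 1 := by
      have h2 : G.card ≤ Fintype.card (PS R W) := Finset.card_le_univ _
      exact_mod_cast h2.trans (card_PS_le R W)
    have h2 : (G.card : ℝ) ≤ 2 * x ^ (1 / 81 : ℝ) := by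
      have := hF.Rx
      linarith
    rw [mul_one_div, mul_div_assoc', div_le_one hL0]
    calc (k : ℝ) * G.card ≤ k * (2 * x ^ (1 / 81 : ℝ)) := by gcongr
      _ = (2 * k : ℝ) * x ^ (1 / 81 : ℝ) := by ring
      _ ≤ L := e5
  have t7 : Sv K J W x = Real.log x / (2 * W) * P := rfl
  refine (Finset.sum_le_sum fun i _ => hshift i).trans ?_
  rw [Finset.sum_const, Finset.card_univ, nsmul_eq_mul, ← hk, mul_add, t7]
  have t9 : (k : ℝ) * (Real.log x / (2 * W) * ((36 * KM * ε + 4 * (k : ℝ) ^ 2 / D0) * P)) =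
      (36 * k * KM * ε + 4 * (k : ℝ) ^ 3 / D0) * (Real.log x / (2 * W) * P) := by
    ring
  rw [t9]
  linarith

end Pool.Agent.Helper66.PU
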