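import Pool.Agent.Helper66.PU.Main
import Pool.Agent.Helper66.PU.Tot

/-!
# Project PU: the expected size of the sieve sum is large
-/

set_option autoImplicit false
set_option linter.unusedSectionVars false

open Finset Filter
open ArithmeticFunction (cardFactors)

namespace Pool.Agent.Helper66.PU

open Pool.Agent.Helper1.MT
open Pool.Agent.Helper66.PV
open Pool.Agent.Helper66.PAP (BadAt)

/-- The expected size of the sieve sum is large, uniformly in the modulus. -/
theorem Sv_big {k : ℕ} (hk : 1 ≤ k) {K J : Fin k → ℕ} {KM : ℝ} (hK0 : ∀ i, 0 < Kp (K i) (J i))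
    (hKM : ∀ i, Kp (K i) (J i) ≤ KM) {W0 : ℕ} (hW0 : 0 < W0) (M : ℝ) :
    ∀ᶠ x : ℝ in atTop, ∀ (I : Finset (Fin k)) (D0 : ℕ) (c1 : ℝ) (h : Fin k → ℕ) (W v : ℕ),
      0 < W → (W : ℝ) ≤ W0 * Real.log x → (W : ℝ) ≤ Real.log x ^ (2 : ℝ) →
      SieveAtV c1 K J I D0 h W v x → Real.log x / (2 * W) ≤ Sv K J W x ∧ M ≤ Sv K J W x := by
  obtain ⟨i0⟩ : Nonempty (Fin k) := ⟨⟨0, hk⟩⟩
  have hKMp : 0 < KM := lt_of_lt_of_le (hK0 i0) (hKM i0)
  have hW0r : (0 : ℝ) < W0 := by exact_mod_cast hW0
  set c2 : ℝ := 9 / 40 / KM with hc2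
  have hc20 : 0 < c2 := by positivity
  set M' : ℝ := max 1 M with hM'
  have hM'1 : 1 ≤ M' := le_max_left _ _
  have hM'0 : 0 < M' := by linarith
  have h1 := loglog_small 1 4 (M' * (2 * W0)) (by norm_num) (by positivity)
    (show 0 < c2 / 82 by positivity)
  filter_upwards [h1, Real.tendsto_log_atTop.eventually_ge_atTop 1] with x hx hlx
  intro I D0 c1 h W v hW hWl hW2 hF
  have hWr : (0 : ℝ) < W := by exact_mod_cast hW
  have hphi : (0 : ℝ) < W.totient := by exact_mod_cast Nat.totient_pos.2 hW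
  have hlogx : 0 < Real.log x := by linarith
  have hll : 0 ≤ Real.log (Real.log x) := Real.log_nonneg hlx
  rw [pow_one] at hx
  -- the size of the modulus
  have hlogW : Real.log W ≤ 2 * Real.log (Real.log x) := by
    have h2 := Real.log_le_log hWr hW2
    rwa [Real.log_rpow hlogx] at h2
  have hρ : (W : ℝ) / W.totient ≤ 1 + 4 * Real.log (Real.log x) := by
    have := div_totient_le hW
    linarith
  set y : ℝ := 1 + 4 * Real.log (Real.log x) with hy
  have hy0 : 0 < y := by positivity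
  have hρ' : 1 / y ≤ (W.totient : ℝ) / W := by
    rw [div_le_div_iff₀ hy0 hWr, one_mul]
    rw [div_le_iff₀ hphi] at hρ
    linarith
  -- one factor
  have hB0 : M' * (2 * W0) ≤ Bv K J W x i0 := by
    refine le_trans ?_ (hF.Blow i0)
    have h3 : c2 ≤ 9 / 40 / Kp (K i0) (J i0) :=
      div_le_div_of_nonneg_left (by norm_num) (hK0 i0) (hKM i0)
    have h4 : Real.log x / 82 ≤ Real.log (lev x) := by
      have := hF.logx
      linarith
    calc M' * (2 * W0) ≤ c2 / 82 * Real.log x / y := by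
          rw [le_div_iff₀ hy0]
          exact hx
      _ = c2 * (1 / y * (Real.log x / 82)) := by ring
      _ ≤ 9 / 40 / Kp (K i0) (J i0) * ((W.totient : ℝ) / W * Real.log (lev x)) := by
          have h5 : 0 ≤ 9 / 40 / Kp (K i0) (J i0) := hc20.le.trans h3
          gcongr
  have hprod : Bv K J W x i0 ≤ ∏ i, Bv K J W x i := by
    rw [← Finset.mul_prod_erase univ _ (mem_univ i0)]
    refine le_mul_of_one_le_right (by linarith [hF.Bone i0]) ?_
    calc (1 : ℝ) = ∏ _i ∈ univ.erase i0, (1 : ℝ) := by simp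
      _ ≤ ∏ i ∈ univ.erase i0, Bv K J W x i :=
        Finset.prod_le_prod (fun i _ => zero_le_one) fun i _ => hF.Bone i
  unfold Sv
  refine ⟨le_mul_of_one_le_right (by positivity) ((hF.Bone i0).trans hprod), ?_⟩
  calc M ≤ M' := le_max_right _ _
    _ = 1 / (2 * W0) * (M' * (2 * W0)) := by field_simp
    _ ≤ Real.log x / (2 * W) * ∏ i, Bv K J W x i := by
        apply mul_le_mul _ (hB0.trans hprod) (by positivity) (by positivity)
        rw [div_le_div_iff₀ (by positivity) (by positivity)]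
        linarith

end Pool.Agent.Helper66.PU
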