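import Pool.Agent.Helper66.PU.Defs2
import Pool.Agent.Helper4.PU.Defs

/-!
# Project PU: the two statements of helper4 in the form used here
-/

set_option autoImplicit false

open Finset
open ArithmeticFunction (cardFactors)

namespace Pool.Agent.Helper66.PU

open Pool.Agent.Helper1.MT
open Pool.Agent.Helper66.PV

theorem rareSumU_of (h : Pool.Agent.Helper4.PU.RareSumU) : RareSumU := h

theorem interSum_of (h : Pool.Agent.Helper4.PU.InterSum) : InterSum := by
  intro k D0 r K J hk hr hD
  obtain ⟨C, X0, hC, hX0⟩ := h k D0 r K J (9 / 40) hk hD hr (by norm_num)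
  refine ⟨C, X0, hC, fun x hx d W v hd hdx hS hpW hW2 hG hV _ => ?_⟩
  have h1 := hX0 x hx d W v hd hdx hS (by rwa [Real.rpow_two] at hW2) hpW (1 / 10) (2 / D0) hG
    (by rw [mul_assoc]; exact hV)
  have h2 : C * (d * Real.log (Real.log x) ^ (r - 1) / Real.log x) * Sv K J W x + 1 =
      C * d * Real.log (Real.log x) ^ (r - 1) / Real.log x * Sv K J W x + 1 := by ring
  rw [h2]
  convert h1
  exact Iff.rfl

end Pool.Agent.Helper66.PU
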