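import Pool.Agent.Helper66.PU.Defs

/-!
# Project PU: statements of the parts on the rare and the intermediate integers
-/

set_option autoImplicit false

open Finset
open ArithmeticFunction (cardFactors)

namespace Pool.Agent.Helper66.PU

open Pool.Agent.Helper1.MT
open Pool.Agent.Helper66.PV

/-- PU-R: `RareSum`, uniformly. -/
def RareSumU : Prop :=
  ∃ C : ℝ, 0 < C ∧ ∀ (κ : Type) [Fintype κ] [DecidableEq κ] (D0 s : ℕ) (ε A : ℝ),
    (Fintype.card κ + 2) ^ 10 ≤ D0 → 0 < ε → ε ≤ 1 → 0 < A →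
    ∃ X0 : ℝ, ∀ x : ℝ, X0 ≤ x → ∀ (h : κ → ℕ) (W v : ℕ), SetN D0 h W →
      (W : ℝ) ≤ Real.log x ^ A → (∀ i, (h i : ℝ) ≤ Real.log x ^ A) →
      ∀ (y Y : (PS (lev x) W → Option κ) → ℝ) (E : ℝ),
      (∀ c, |y c| ≤ Y c) → (∀ c, Y c ≤ 1) → (∀ c c', Le c c' → Y c' ≤ Y c) →
      (∀ c, y c ≠ 0 → T (tp (lev x) W) (supp c) ≤ 1) →
      ∑ c : PS (lev x) W → Option κ, ws (wp (lev x) W) (supp c) * Y c ^ 2 ≤ E →
      ∀ [DecidablePred (RareAt h W s ε x)],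
      ∑ n ∈ (NS x W v).filter (RareAt h W s ε x),
        (1 / (n : ℝ)) * sw h (lam (wp (lev x) W) y) n ≤
        Fintype.card κ * ((9 * (Real.log (1 / ε) + C)) ^ s / s.factorial) *
          (Real.log x / (2 * W) * E) + 2

/-- Some integer between `n` and `n + (k-1) d`, not of the form `n + i d`, has at most `r` prime
factors. -/
def InterAt (k d r n : ℕ) : Prop := ∃ t < (k - 1) * d, ¬ d ∣ t ∧ cardFactors (n + t) ≤ r

/-- PU-T: the `n` with such an intermediate integer. -/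
def InterSum : Prop :=
  ∀ (k D0 r : ℕ) (K J : Fin k → ℕ), 1 ≤ k → 1 ≤ r → (k + 2) ^ 10 ≤ D0 →
    ∃ C X0 : ℝ, 0 < C ∧ ∀ x : ℝ, X0 ≤ x → ∀ d W v : ℕ, 0 < d → (d : ℝ) ≤ Real.log x →
      SetN D0 (fun i : Fin k => (i : ℕ) * d) W → (∀ p : ℕ, p.Prime → p ∣ W → p < D0 ∨ p ∣ d) →
      (W : ℝ) ≤ Real.log x ^ (2 : ℝ) →
      GoodV (wp (lev x) W) (tp (lev x) W) (gv K J (lev x) W) (1 / 10) (2 / D0) →
      9 / 40 * ((W.totient : ℝ) / W * Real.log (lev x)) ≤ V0 (wp (lev x) W) (tp (lev x) W) →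
      ∀ [DecidablePred (InterAt k d r)],
      ∑ n ∈ (NS x W v).filter (InterAt k d r), uv (fun i : Fin k => (i : ℕ) * d) K J W x n ≤
        C * (d * Real.log (Real.log x) ^ (r - 1) / Real.log x) * Sv K J W x + 1

end Pool.Agent.Helper66.PU
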