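import Pool.Agent.Helper66.PU.Big
import Pool.Agent.Helper87.MT.Tuple
import Pool.Agent.Helper9.MT.Gram
import Pool.Agent.Helper95.PV.LowerMain
import Pool.Agent.Helper46.MT.Expand

/-!
# Project PU: the final sum
-/

set_option autoImplicit false
set_option linter.unusedSectionVars false

open Finset Filter
open ArithmeticFunction (cardFactors)

namespace Pool.Agent.Helper66.PU

open Pool.Agent.Helper1.MT
open Pool.Agent.Helper66.PV
open Pool.Agent.Helper66.PAP (BadAt)

/-- The number of the good `n` in one class, uniformly. -/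
theorem main_classU (hI : IntervalSumU) (hWt : WeightU) (hIk : IkCard) (hN2 : SumPrimeNU)
    (hA : OneDimW) (hRare : RareSumU) (hInter : InterSum) :
    ∃ c C₀ : ℝ, 0 < c ∧ 0 < C₀ ∧ ∀ k : ℕ, 1 ≤ k → ∃ (r D0 : ℕ) (δ : ℝ), 2 * k < D0 ∧
      (r : ℝ) ≤ C₀ * Real.log (k + 1) ∧ 0 < δ ∧ 1 ≤ C₀ * (k : ℝ) ^ 3 * δ ∧
      ∀ R W0 : ℕ, 1 ≤ R → 0 < W0 → ∃ C : ℝ, 0 < C ∧ ∃ X0 : ℝ, ∀ x : ℝ, X0 ≤ x →
        ∀ d d' v : ℕ, 0 < d → 0 < d' → d' ≤ d →
        (d : ℝ) ≤ C * Real.log x / Real.log (Real.log x) ^ (R - 1) →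
        SetN D0 (fun i : Fin k => (i : ℕ) * d) (W0 * d') →
        (∀ p : ℕ, p.Prime → p ∣ W0 * d' → p < D0 ∨ p ∣ d) →
        (∀ i ∈ Ik k, Nat.Coprime (v + (i : ℕ) * d) (W0 * d')) →
        ∀ (P : ℕ → Prop) [DecidablePred P], (∀ n ∈ NS x (W0 * d') v,
          GoodN (fun i : Fin k => (i : ℕ) * d) (W0 * d') c δ r n → ¬ InterAt k d R n → P n) →
        C * (Real.log x / (W0 * d' : ℕ)) /
          (((W0 * d').totient : ℝ) / (W0 * d' : ℕ) * Real.log x) ^ k ≤
            ∑ n ∈ (NS x (W0 * d') v).filter P, 1 / (n : ℝ) := by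
  classical
  have hT := Pool.Agent.Helper87.MT.tupleSum
  have hE := Pool.Agent.Helper46.MT.expand
  obtain ⟨c1, hc1, hb⟩ := sieveAtU hT Pool.Agent.Helper9.MT.gramUpper
    Pool.Agent.Helper9.MT.gramLower Pool.Agent.Helper95.PV.lowerMainV hE hN2 hA
  obtain ⟨cJ, hcJ, hJge⟩ := J_ge hIk
  obtain ⟨CR, hCR, hRare⟩ := hRare
  set c1' : ℝ := c1 / 2 with hc1'
  have hc1'0 : 0 < c1' := by positivity
  set e0 : ℝ := min 1 (c1' / 110592) with he0
  have he00 : 0 < e0 := lt_min one_pos (by positivity)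
  have he01 : e0 ≤ 1 := min_le_left _ _
  have he0c : e0 ≤ c1' / 110592 := min_le_right _ _
  have hloge : 0 ≤ Real.log (1 / e0) := Real.log_nonneg (by rw [le_div_iff₀ he00]; linarith)
  set L0 : ℝ := Real.log (1 / e0) + CR with hL0
  have hL00 : 0 ≤ L0 := by positivity
  set L1 : ℝ := |Real.log (48 / c1')| with hL1
  have hL10 : 0 ≤ L1 := abs_nonneg _
  set C' : ℝ := 218 + 2 * (72 * L0 + L1 + 1) with hC'
  refine ⟨c1 * cJ / 16, 6 * C' + 328 + 82 / e0, by positivity, by positivity, ?_⟩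
  intro k hk
  have hkr : (1 : ℝ) ≤ k := by exact_mod_cast hk
  have hkr0 : (0 : ℝ) < k := by linarith
  have hlogk : 0 ≤ Real.log k := Real.log_nonneg hkr
  obtain ⟨hN1, hJ1⟩ := hJge k hk
  set I := Ik k with hIdef
  set N := I.card with hNdef
  have hNk : N ≤ k := by
    have h1 : I.card ≤ Fintype.card (Fin k) := Finset.card_le_univ I
    rwa [Fintype.card_fin] at h1
  have hNr : (1 : ℝ) ≤ N := by exact_mod_cast hN1
  have hNr0 : (0 : ℝ) < N := by linarith
  have hNkr : (N : ℝ) ≤ k := by exact_mod_cast hNk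
  set J1 := Nat.log 2 N with hJ1def
  have hJ0 : (0 : ℝ) ≤ J1 := Nat.cast_nonneg J1
  set ε : ℝ := e0 / (k : ℝ) ^ 3 with hε
  have hk3 : (1 : ℝ) ≤ (k : ℝ) ^ 3 := one_le_pow₀ hkr
  have hε0 : 0 < ε := by positivity
  have hε1 : ε ≤ 1 := by
    rw [hε, div_le_one (by positivity)]
    linarith
  have hlogε : Real.log (1 / ε) = 3 * Real.log k + Real.log (1 / e0) := by
    have h1 : 1 / ε = (k : ℝ) ^ 3 * (1 / e0) := by rw [hε]; field_simp
    rw [h1, Real.log_mul (by positivity) (by positivity), Real.log_pow]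
    norm_num
  set s : ℕ := ⌈72 * (3 * Real.log k + L0) + 2 * Real.log k + L1⌉₊ with hs
  have hsarg : 0 ≤ 72 * (3 * Real.log k + L0) + 2 * Real.log k + L1 := by positivity
  have hsge : 72 * (3 * Real.log k + L0) + 2 * Real.log k + L1 ≤ s := Nat.le_ceil _
  have hsle : (s : ℝ) ≤ 72 * (3 * Real.log k + L0) + 2 * Real.log k + L1 + 1 :=
    (Nat.ceil_lt_add_one hsarg).le
  set D0 : ℕ := max ((3 * k + 3) ^ 10) ⌈192 * (k : ℝ) ^ 4 / c1'⌉₊ with hD0
  have hD0a : (3 * k + 3) ^ 10 ≤ D0 := le_max_left _ _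
  have hD0k : 2 * k < D0 := by
    have h1 : 3 * k + 3 ≤ (3 * k + 3) ^ 10 := Nat.le_self_pow (by norm_num) _
    omega
  have hD0pos : (0 : ℝ) < D0 := by exact_mod_cast (by omega : 0 < D0)
  -- the bound for r
  have hlogk1 : Real.log k ≤ Real.log (k + 1) := Real.log_le_log hkr0 (by linarith)
  have hlog2 : 1 / 2 ≤ Real.log (k + 1) := by
    have h1 : Real.log 2 ≤ Real.log ((k : ℝ) + 1) := Real.log_le_log (by norm_num) (by linarith)
    have h2 := Real.log_two_gt_d9
    linarith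
  have hrle : ((6 * s + 164 : ℕ) : ℝ) ≤ (6 * C' + 328 + 82 / e0) * Real.log (k + 1) := by
    have h1 : (s : ℝ) ≤ C' * Real.log (k + 1) := num_r hlogk1 hlog2 hL00 hL10 hsle
    have h2 : 0 ≤ 82 / e0 * Real.log (k + 1) :=
      mul_nonneg (div_pos (by norm_num) he00).le (le_trans (by norm_num) hlog2)
    push_cast
    exact num_r2 h2 hlog2 h1
  have hδle : 1 ≤ (6 * C' + 328 + 82 / e0) * (k : ℝ) ^ 3 * (ε / 82) := by
    have h1 : (6 * C' + 328 + 82 / e0) * (k : ℝ) ^ 3 * (ε / 82) =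
        (6 * C' + 328) * (e0 / 82) + 1 := by
      rw [hε]
      field_simp
    rw [h1]
    have h2 : 0 ≤ (6 * C' + 328) * (e0 / 82) := by positivity
    linarith
  refine ⟨6 * s + 164, D0, ε / 82, hD0k, hrle, by positivity, hδle, ?_⟩
  intro R W0 hR hW0
  have hW0r : (0 : ℝ) < W0 := by exact_mod_cast hW0
  -- the parameters of the sieve
  set K : Fin k → ℕ := fun i => if i ∈ I then 3 * N + 1 else 3 * k + 1 with hKdef
  set J : Fin k → ℕ := fun i => if i ∈ I then J1 else 0 with hJdef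
  have hcard : Fintype.card (Fin k) = k := Fintype.card_fin k
  have hK1 : ∀ i ∈ I, K i = 3 * N + 1 := fun i hi => by simp only [hKdef]; rw [if_pos hi]
  have hK2 : ∀ i, i ∉ I → K i = 3 * k + 1 := fun i hi => by simp only [hKdef]; rw [if_neg hi]
  have hJ1' : ∀ i ∈ I, J i = J1 := fun i hi => by simp only [hJdef]; rw [if_pos hi]
  have hJ2' : ∀ i, i ∉ I → J i = 0 := fun i hi => by simp only [hJdef]; rw [if_neg hi]
  have hKge : ∀ i, 2 ≤ K i := by
    intro i
    by_cases hi : i ∈ I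
    · rw [hK1 i hi]; omega
    · rw [hK2 i hi]; omega
  have hKle : ∀ i, K i ≤ 3 * k + 1 := by
    intro i
    by_cases hi : i ∈ I
    · rw [hK1 i hi]; omega
    · rw [hK2 i hi]
  have hJle : ∀ i, J i ≤ J1 := by
    intro i
    by_cases hi : i ∈ I
    · rw [hJ1' i hi]
    · rw [hJ2' i hi]; omega
  have hJK : ∀ i, 10 * 2 ^ J i ≤ 8 * K i * (J i + 2) := by
    intro i
    by_cases hi : i ∈ I
    · rw [hK1 i hi, hJ1' i hi]
      exact num_J hN1 (Nat.pow_log_le_self 2 (by omega))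
    · rw [hK2 i hi, hJ2' i hi]
      omega
  have hKD : ∀ i, (K i + 2) ^ 10 ≤ D0 := by
    intro i
    have h1 := hKle i
    exact (Nat.pow_le_pow_left (by omega) 10).trans hD0a
  have hcD : (Fintype.card (Fin k) + 2) ^ 10 ≤ D0 := by
    rw [hcard]
    exact (Nat.pow_le_pow_left (by omega) 10).trans hD0a
  set KM : ℝ := 8 * (3 * (k : ℝ) + 1) * (J1 + 2) with hKMdef
  have hKp0 : ∀ i, 0 < Kp (K i) (J i) := by
    intro i
    have h1 : (0 : ℝ) < K i := by exact_mod_cast (by have := hKge i; omega : 0 < K i)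
    unfold Kp
    positivity
  have hKM : ∀ i, Kp (K i) (J i) ≤ KM := by
    intro i
    unfold Kp
    have h1 : ((K i : ℕ) : ℝ) ≤ 3 * k + 1 := by exact_mod_cast hKle i
    have h2 : ((J i : ℕ) : ℝ) ≤ J1 := by exact_mod_cast hJle i
    rw [hKMdef]
    gcongr
  set G : ℝ := c1 * (J1 + 2) / 4 with hG
  have hG0 : 0 < G := by positivity
  have hGsum : G ≤ ∑ m ∈ I, c1 * (((J m : ℕ) + 2) / (K m : ℕ) : ℝ) := by
    have h1 : ∑ m ∈ I, c1 * (((J m : ℕ) + 2) / (K m : ℕ) : ℝ) =
        N * (c1 * ((J1 + 2) / (3 * N + 1))) := by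
      rw [Finset.sum_congr rfl (g := fun _ => c1 * (((J1 : ℝ) + 2) / (3 * N + 1)))]
      · rw [Finset.sum_const, nsmul_eq_mul]
      · intro m hm
        rw [hK1 m hm, hJ1' m hm]
        push_cast
        rfl
    rw [h1, hG]
    exact num_G hc1 hJ0 hNr
  have hρ : ∑ i, 1 / (9 * ((K i : ℝ) - 1)) ≤ 1 / 10 := sum_rho I hN1
  obtain ⟨X1, hX1⟩ := hb (Fin k) K J D0 2 two_pos (by rw [hcard]; omega) hcD hKge hJK hKD hρ
  obtain ⟨X2, hX2⟩ := bad_sumU (D0 := D0) (c1 := c1) (A := 2) hI hE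
    (fun i => by have := hKge i; omega) hJK hcD hKM hε0 one_le_two
  obtain ⟨X3, hX3⟩ := hRare (Fin k) D0 s ε 2 hcD hε0 hε1 two_pos
  obtain ⟨CI, X4, hCI, hX4⟩ := hInter k D0 R K J hk hR (by rw [← hcard]; exact hcD)
  obtain ⟨Cf, hCf, hcount⟩ := count_of_sumU (K := K) (J := J) (KM := KM) (g := G / (4 * N))
    (r := 6 * s + 164) hWt hk (by positivity) hKp0 hKM
  set Smin : ℝ := (N * (1 + 4) + G / 4) / (3 / 8 * G) with hSmin
  set C : ℝ := min (min 1 Cf) (G / (16 * N * CI)) with hC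
  have hC0 : 0 < C := lt_min (lt_min one_pos hCf) (by positivity)
  have hC1 : C ≤ 1 := (min_le_left _ _).trans (min_le_left _ _)
  have hCCf : C ≤ Cf := (min_le_left _ _).trans (min_le_right _ _)
  have hCG : N * (CI * C) ≤ G / 16 := by
    have h1 : C ≤ G / (16 * N * CI) := min_le_right _ _
    rw [le_div_iff₀ (by positivity)] at h1
    linarith
  refine ⟨C, hC0, ?_⟩
  obtain ⟨X0, hX0⟩ := eventually_atTop.1 ((eventually_ge_atTop X1).and
    ((eventually_ge_atTop X2).and ((eventually_ge_atTop X3).and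
      ((eventually_ge_atTop X4).and ((Sv_big (K := K) (J := J) hk hKp0 hKM hW0 Smin).and
      ((Real.tendsto_log_atTop.eventually_ge_atTop ((W0 : ℝ) + k)).and
      (((Real.tendsto_log_atTop.comp Real.tendsto_log_atTop).eventually_ge_atTop 1).and
      (log_rpow_le (A := 2) (show (0 : ℝ) < 1 / 81 by norm_num)))))))))
  refine ⟨X0, fun x hx d d' v hd hd' hdd' hdx hS hpW hcop P _ hP => ?_⟩
  obtain ⟨e1, e2, e3, e4, e5, e6, e7, e8⟩ := hX0 x hx
  simp only [Function.comp_apply] at e7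
  set h : Fin k → ℕ := fun i : Fin k => (i : ℕ) * d with hhdef
  set W : ℕ := W0 * d' with hWdef
  have hWpos : 0 < W := hS.W_pos
  have hWr : (0 : ℝ) < W := by exact_mod_cast hWpos
  have hdr : (0 : ℝ) < d := by exact_mod_cast hd
  have hlogx : 0 < Real.log x := by linarith
  have hll1 : (1 : ℝ) ≤ Real.log (Real.log x) ^ (R - 1) := one_le_pow₀ e7
  have hll0 : (0 : ℝ) < Real.log (Real.log x) ^ (R - 1) := by linarith
  -- the sizes
  have hdlog : (d : ℝ) ≤ Real.log x := by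
    refine hdx.trans ?_
    rw [div_le_iff₀ hll0]
    calc C * Real.log x ≤ 1 * Real.log x := by gcongr
      _ = Real.log x * 1 := by ring
      _ ≤ _ := by gcongr
  have hd'log : (d' : ℝ) ≤ Real.log x := le_trans (by exact_mod_cast hdd') hdlog
  have hWlog : (W : ℝ) ≤ W0 * Real.log x := by
    rw [hWdef]
    push_cast
    gcongr
  have hsq : Real.log x ^ (2 : ℝ) = Real.log x * Real.log x := by
    rw [Real.rpow_two, sq]
  have hW2 : (W : ℝ) ≤ Real.log x ^ (2 : ℝ) := by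
    rw [hsq]
    refine hWlog.trans ?_
    have : (W0 : ℝ) ≤ Real.log x := by linarith
    gcongr
  have hh2 : ∀ i, (h i : ℝ) ≤ Real.log x ^ (2 : ℝ) := by
    intro i
    rw [hsq, hhdef]
    push_cast
    have h1 : ((i : ℕ) : ℝ) ≤ Real.log x := by
      have h2 : ((i : ℕ) : ℝ) ≤ k := by exact_mod_cast i.2.le
      linarith
    gcongr
  have hWlev : W ≤ lev x := Nat.le_floor (hW2.trans e8)
  obtain ⟨hF, hV0⟩ := hX1 x e1 I h W v hS hW2 hh2 hcop
  have hx9 := hF.x9
  have hx0 : (0 : ℝ) < x := by linarith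
  have hbad := hX2 x e2 I h W v hS hW2 hF
  rw [hcard] at hbad
  -- the rare ones
  have hrare := hX3 x e3 h W v hS hW2 hh2 (yv (tp (lev x) W) (gv K J (lev x) W))
    (fun c => |yv (tp (lev x) W) (gv K J (lev x) W) c|) (∏ i, Bv K J W x i)
    (fun c => le_rfl) (fun c => yv_abs_le hF.good c) (fun c c' hc => yv_anti hF.good c c' hc)
    (fun c hc => yv_supp hc) (by
      simp only [sq_abs]
      exact energyV_le hT hF.good)
  rw [hcard] at hrare
  have hinter := hX4 x e4 d W v hd hdlog hS hpW hW2 hF.good hV0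
  set S := Sv K J W x with hSdef
  have hSeq : Real.log x / (2 * W) * ∏ i, Bv K J W x i = S := rfl
  rw [hSeq] at hrare
  obtain ⟨hS1, hS2⟩ := e5 I D0 c1 h W v hWpos hWlog hW2 hF
  have hS0 : 0 ≤ S := le_trans (by positivity) hS1
  have hSbig : N * (1 + 4) + G / 4 ≤ 3 / 8 * G * S := by
    have h1 : Smin ≤ S := hS2
    rw [hSmin, div_le_iff₀ (by positivity)] at h1
    linarith
  -- the total of the bad ones
  set δa : ℝ := 36 * k * KM * ε + 4 * (k : ℝ) ^ 3 / D0 with hδa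
  set δb : ℝ := k * ((9 * (Real.log (1 / ε) + CR)) ^ s / s.factorial) with hδb
  set δc : ℝ := CI * (d * Real.log (Real.log x) ^ (R - 1) / Real.log x) with hδc
  set Q : ℕ → Prop := fun n => (BadAt h W ε x n ∨ RareAt h W s ε x n) ∨ InterAt k d R n with hQ
  have hbadQ : ∑ n ∈ (NS x W v).filter Q, uv h K J W x n ≤ (δa + δb + δc) * S + 4 := by
    have h0 := sum_or_le (s := NS x W v) (A := fun n => BadAt h W ε x n ∨ RareAt h W s ε x n)
      (B := InterAt k d R) (u := uv h K J W x) (fun n => uv_nonneg h K J W x n)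
    have h1 := sum_or_le (s := NS x W v) (A := BadAt h W ε x) (B := RareAt h W s ε x)
      (u := uv h K J W x) (fun n => uv_nonneg h K J W x n)
    have h2 : ∑ n ∈ (NS x W v).filter (RareAt h W s ε x), uv h K J W x n ≤ δb * S + 2 := hrare
    calc _ ≤ _ := h0
      _ ≤ ((δa * S + 1) + (δb * S + 2)) + (δc * S + 1) :=
          add_le_add (h1.trans (add_le_add hbad h2)) hinter
      _ = _ := by ring
  have hNδ : N * (δa + δb + δc) ≤ G / 8 := by
    have hδa0 : 0 ≤ δa := by positivity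
    have hδb0 : 0 ≤ δb := by
      have : 0 ≤ Real.log (1 / ε) + CR := by
        rw [hlogε]
        positivity
      positivity
    have hGc : G = 2 * (c1' * (J1 + 2) / 4) := by rw [hG, hc1']; ring
    have h2 : k * (36 * k * KM * ε) ≤ c1' * (J1 + 2) / 4 / 24 := num_a hkr hJ0 he00 he0c
    have h3 : k * (4 * (k : ℝ) ^ 3 / D0) ≤ c1' * (J1 + 2) / 4 / 24 :=
      num_b hJ0 hc1'0 hD0pos ((Nat.le_ceil _).trans (Nat.cast_le.2 (le_max_right _ _)))
    have h4 : k * δb ≤ c1' * (J1 + 2) / 4 / 24 := by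
      have h5 : 0 ≤ 9 * (Real.log (1 / ε) + CR) := by
        rw [hlogε]
        positivity
      have h6 : 8 * (9 * (Real.log (1 / ε) + CR)) ≤ s := by
        refine le_trans ?_ hsge
        rw [hlogε]
        have : 8 * (9 * (3 * Real.log k + Real.log (1 / e0) + CR)) =
          72 * (3 * Real.log k + L0) := by rw [hL0]; ring
        rw [this]
        linarith
      have h7 := tail_le h5 h6
      have h8 : Real.exp (-s) ≤ c1' / 48 / (k : ℝ) ^ 2 := by
        refine num_c hkr hc1'0 (le_abs_self _) (le_trans ?_ hsge)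
        have : 0 ≤ 72 * (3 * Real.log k + L0) := by positivity
        linarith
      exact num_d hkr hJ0 hc1'0 (h7.trans h8)
    have h9 : N * δc ≤ G / 16 := by
      refine le_trans ?_ hCG
      rw [hδc]
      have h10 : (d : ℝ) * Real.log (Real.log x) ^ (R - 1) / Real.log x ≤ C := by
        rw [le_div_iff₀ hll0] at hdx
        rw [div_le_iff₀ hlogx]
        exact hdx
      gcongr
    have h11 : (N : ℝ) * (δa + δb) ≤ G / 16 := by
      calc (N : ℝ) * (δa + δb) ≤ k * (δa + δb) := by gcongr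
        _ = k * (36 * k * KM * ε) + k * (4 * (k : ℝ) ^ 3 / D0) + k * δb := by rw [hδa]; ring
        _ ≤ c1' * (J1 + 2) / 4 / 24 + c1' * (J1 + 2) / 4 / 24 + c1' * (J1 + 2) / 4 / 24 :=
          add_le_add (add_le_add h2 h3) h4
        _ = G / 16 := by rw [hGc]; ring
    calc (N : ℝ) * (δa + δb + δc) = N * (δa + δb) + N * δc := by ring
      _ ≤ G / 16 + G / 16 := add_le_add h11 h9
      _ = G / 8 := by ring
  have hmain := rough_many (b := 4) (G := G) (δ1 := δa + δb + δc) (by omega) hG0 hF hGsum Q hbadQ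
    hNδ hSbig hS0
  have hcnt := hcount I D0 c1 x h W v hWpos hWlev hF (fun n => ¬ Q n ∧ G / 4 ≤ npI h I n) (by
    intro n hn i
    obtain ⟨hnQ, -⟩ := (mem_filter.1 hn).2
    simp only [hQ] at hnQ
    push Not at hnQ
    have h1 := hnQ.1.2
    unfold RareAt at h1
    push Not at h1
    exact h1 hnQ.1.1 i) hmain
  have hphi : (0 : ℝ) < W.totient := by exact_mod_cast Nat.totient_pos.2 hWpos
  refine le_trans ?_ (hcnt.trans ?_)
  · gcongr
  apply Finset.sum_le_sum_of_subset_of_nonneg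
  · intro n hn
    rw [mem_filter] at hn ⊢
    obtain ⟨hnNS, hnQ, hnp⟩ := hn
    simp only [hQ] at hnQ
    push Not at hnQ
    refine ⟨hnNS, hP n hnNS ⟨fun i => ?_, fun i p hp hpd hpW => ?_, ?_⟩ hnQ.2⟩
    · have h1 := hnQ.1.2
      unfold RareAt at h1
      push Not at h1
      exact h1 hnQ.1.1 i
    · refine lt_of_le_of_lt ?_ (big_of_not_bad hF.R3 hε1 hnQ.1.1 i p hp hpd hpW)
      have hnx : (n : ℝ) ≤ x := by
        unfold NS at hnNS
        rw [mem_filter, mem_Ioc] at hnNS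
        exact (Nat.le_floor_iff hx0.le).1 hnNS.1.2
      have hR0 : (0 : ℝ) < lev x := by
        have := hF.R3
        exact_mod_cast (by omega : 0 < lev x)
      calc (n : ℝ) ^ (ε / 82) ≤ x ^ (ε / 82) :=
            Real.rpow_le_rpow (Nat.cast_nonneg n) hnx (by positivity)
        _ ≤ (lev x : ℝ) ^ ε := by
            rw [← Real.log_le_log_iff (Real.rpow_pos_of_pos hx0 _) (Real.rpow_pos_of_pos hR0 _),
              Real.log_rpow hx0, Real.log_rpow hR0]
            have := hF.logx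
            calc ε / 82 * Real.log x ≤ ε / 82 * (82 * Real.log (lev x)) := by gcongr
              _ = ε * Real.log (lev x) := by ring
    · refine le_trans ?_ hnp
      calc c1 * cJ / 16 * Real.log k = c1 / 16 * (cJ * Real.log k) := by ring
        _ ≤ c1 / 16 * (J1 + 2) := by gcongr
        _ = G / 4 := by rw [hG]; ring
  · intro n _ _
    positivity

end Pool.Agent.Helper66.PU
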