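import Pool.Agent.Helper66.PU.Bad
import Pool.Agent.Helper66.PU.Defs2
import Pool.Agent.Helper66.PV.FinalA

/-!
# Project PU: the number of the good `n` in one class
-/

set_option autoImplicit false

open Finset Filter
open ArithmeticFunction (cardFactors)

namespace Pool.Agent.Helper66.PU

open Pool.Agent.Helper1.MT
open Pool.Agent.Helper66.PV

/-- The lower bound for the number of the good `n` in one class. -/
theorem count_of_sumU (hWt : WeightU) {k : ℕ} (hk : 1 ≤ k) {K J : Fin k → ℕ} {KM g : ℝ} {r : ℕ}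
    (hg : 0 < g) (hK0 : ∀ i, 0 < Kp (K i) (J i)) (hKM : ∀ i, Kp (K i) (J i) ≤ KM) :
    ∃ C : ℝ, 0 < C ∧ ∀ (I : Finset (Fin k)) (D0 : ℕ) (c1 x : ℝ) (h : Fin k → ℕ) (W v : ℕ),
      0 < W → W ≤ lev x → SieveAtV c1 K J I D0 h W v x →
      ∀ (P : ℕ → Prop) [DecidablePred P],
      (∀ n ∈ (NS x W v).filter P, ∀ i, oW W (n + h i) ≤ r) →
      g * Sv K J W x ≤ ∑ n ∈ (NS x W v).filter P, uv h K J W x n →
      C * (Real.log x / W) / ((W.totient : ℝ) / W * Real.log x) ^ k ≤
        ∑ n ∈ (NS x W v).filter P, 1 / (n : ℝ) := by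
  classical
  obtain ⟨Cw, hCw, hWt⟩ := hWt
  have hcard : Fintype.card (Fin k) = k := Fintype.card_fin k
  obtain ⟨i0⟩ : Nonempty (Fin k) := ⟨⟨0, hk⟩⟩
  have hKMp : 0 < KM := lt_of_lt_of_le (hK0 i0) (hKM i0)
  set c2 : ℝ := 9 / 40 / KM with hc2
  have hc20 : 0 < c2 := by positivity
  set M0 : ℝ := ((2 : ℝ) ^ (k * r) * Cw ^ k) ^ 2 with hM0
  have hM00 : 0 < M0 := by positivity
  set Cf : ℝ := g * (1 / 2) * c2 ^ k / M0 with hCf
  have hCf0 : 0 < Cf := by positivity
  refine ⟨Cf, hCf0, fun I D0 c1 x h W v hW hWR hF P _ hP hsum => ?_⟩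
  have hWr : (0 : ℝ) < W := by exact_mod_cast hW
  have hphi : (0 : ℝ) < W.totient := by exact_mod_cast Nat.totient_pos.2 hW
  have hx9 := hF.x9
  have hx0 : (0 : ℝ) < x := by linarith
  have hlogx : 0 < Real.log x := Real.log_pos (by linarith)
  have hR3 := hF.R3
  set R := lev x with hR
  have hRr : (3 : ℝ) ≤ R := by exact_mod_cast hR3
  have hR0 : (0 : ℝ) < R := by linarith
  have hlogR : 0 < Real.log R := Real.log_pos (by linarith)
  have hlogRx : Real.log R ≤ Real.log x := by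
    apply Real.log_le_log hR0
    refine hF.Rx.trans ?_
    calc x ^ (1 / 81 : ℝ) ≤ x ^ (1 : ℝ) :=
          Real.rpow_le_rpow_of_exponent_le (by linarith) (by norm_num)
      _ = x := Real.rpow_one x
  set q : ℝ := (W.totient : ℝ) / W * Real.log R with hq
  have hq0 : 0 < q := by positivity
  have hqx : q ≤ (W.totient : ℝ) / W * Real.log x :=
    mul_le_mul_of_nonneg_left hlogRx (by positivity)
  -- the weights
  have hgood : ∀ n ∈ (NS x W v).filter P,
      uv h K J W x n ≤ M0 * q ^ (2 * k) * (1 / (n : ℝ)) := by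
    intro n hn
    have hno := hP n hn
    rw [mem_filter] at hn
    have hngt : R < n := NS_gt hn.1 (by linarith)
    have hn0 : 0 < n := by omega
    have h1 := hWt (Fin k) R W h (yv (tp R W) (gv K J R W)) n r hR3 hW hWR
      (fun c => yv_abs_le hF.good c) hn0 hno
    rw [hcard] at h1
    have h2 : uv h K J W x n = (1 / (n : ℝ)) *
        sw h (lam (wp R W) (yv (tp R W) (gv K J R W))) n := rfl
    rw [h2, mul_comm]
    apply mul_le_mul_of_nonneg_right _ (by positivity)
    refine h1.trans (le_of_eq ?_)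
    rw [hM0, hq]
    ring
  have hfin1 : ∑ n ∈ (NS x W v).filter P, uv h K J W x n ≤ M0 * q ^ (2 * k) *
      ∑ n ∈ (NS x W v).filter P, 1 / (n : ℝ) := by
    rw [Finset.mul_sum]
    exact Finset.sum_le_sum hgood
  have hfin2 := hsum.trans hfin1
  set Z := ∑ n ∈ (NS x W v).filter P, 1 / (n : ℝ) with hZ
  have hBi : ∀ i, c2 * q ≤ Bv K J W x i := by
    intro i
    refine le_trans ?_ (hF.Blow i)
    have h1 : 9 / 40 / KM ≤ 9 / 40 / Kp (K i) (J i) :=
      div_le_div_of_nonneg_left (by norm_num) (hK0 i) (hKM i)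
    exact mul_le_mul_of_nonneg_right h1 hq0.le
  have hprod : (c2 * q) ^ k ≤ ∏ i, Bv K J W x i := by
    have h1 : (c2 * q) ^ k = ∏ _i : Fin k, (c2 * q) := by
      rw [Finset.prod_const, Finset.card_univ, hcard]
    rw [h1]
    exact Finset.prod_le_prod (fun i _ => by positivity) fun i _ => hBi i
  have hfin3 : g * (Real.log x / (2 * W) * (c2 * q) ^ k) ≤ M0 * q ^ (2 * k) * Z := by
    refine le_trans ?_ hfin2
    apply mul_le_mul_of_nonneg_left _ hg.le
    unfold Sv
    exact mul_le_mul_of_nonneg_left hprod (by positivity)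
  have hfin4 : Cf * (Real.log x / W) / q ^ k ≤ Z := by
    rw [div_le_iff₀ (by positivity)]
    have h1 : Cf * (Real.log x / W) * (M0 * q ^ k) ≤ Z * q ^ k * (M0 * q ^ k) := by
      have hCf' : Cf * M0 = g * (1 / 2) * c2 ^ k := by
        rw [hCf]
        exact div_mul_cancel₀ _ hM00.ne'
      calc Cf * (Real.log x / W) * (M0 * q ^ k) = (Cf * M0) * (Real.log x / W * q ^ k) := by ring
        _ = g * (Real.log x / (2 * W) * (c2 * q) ^ k) := by
            rw [hCf', mul_pow c2 q k]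
            generalize q ^ k = z
            generalize c2 ^ k = z'
            field_simp
        _ ≤ M0 * q ^ (2 * k) * Z := hfin3
        _ = _ := by ring
    exact le_of_mul_le_mul_right h1 (by positivity)
  refine le_trans ?_ hfin4
  have h5 : q ^ k ≤ ((W.totient : ℝ) / W * Real.log x) ^ k := pow_le_pow_left₀ hq0.le hqx k
  exact div_le_div_of_nonneg_left (by positivity) (by positivity) h5

/-- The sum over the classes. -/
theorem sum_classes {k W0 d' : ℕ} {V : Finset ℕ} {x C : ℝ} {P : ℕ → Prop} [DecidablePred P]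
    (hk : 1 ≤ k) (hW0 : 0 < W0) (hd' : 0 < d') (hco : Nat.Coprime W0 d') (hx : 1 < x) (hC : 0 < C)
    (hV : V ⊆ range (W0 * d')) (hcard : d'.totient ≤ V.card)
    (h : ∀ v ∈ V, C * (Real.log x / (W0 * d' : ℕ)) /
      (((W0 * d').totient : ℝ) / (W0 * d' : ℕ) * Real.log x) ^ k ≤
        ∑ n ∈ (NS x (W0 * d') v).filter P, 1 / (n : ℝ)) :
    C / W0 * ((d' : ℝ) / d'.totient) ^ (k - 1) * Real.log x / Real.log x ^ k ≤
      ∑ n ∈ (Ioc ⌊x ^ (1 / 2 : ℝ)⌋₊ ⌊x⌋₊).filter P, 1 / (n : ℝ) := by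
  classical
  have hlogx : 0 < Real.log x := Real.log_pos hx
  have hW0r : (0 : ℝ) < W0 := by exact_mod_cast hW0
  have hd'r : (0 : ℝ) < d' := by exact_mod_cast hd'
  have hφ0 : (0 : ℝ) < W0.totient := by exact_mod_cast Nat.totient_pos.2 hW0
  have hφ' : (0 : ℝ) < d'.totient := by exact_mod_cast Nat.totient_pos.2 hd'
  -- disjoint classes
  have h1 : ∑ v ∈ V, ∑ n ∈ (NS x (W0 * d') v).filter P, 1 / (n : ℝ) ≤
      ∑ n ∈ (Ioc ⌊x ^ (1 / 2 : ℝ)⌋₊ ⌊x⌋₊).filter P, 1 / (n : ℝ) := by
    rw [← Finset.sum_biUnion]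
    · apply Finset.sum_le_sum_of_subset_of_nonneg
      · intro n hn
        rw [mem_biUnion] at hn
        obtain ⟨v, -, hn⟩ := hn
        rw [mem_filter] at hn
        have h2 := hn.1
        unfold NS at h2
        rw [mem_filter] at h2
        rw [mem_filter]
        exact ⟨h2.1, hn.2⟩
      · intro n _ _
        positivity
    · intro v hv v' hv' hne
      rw [Function.onFun, Finset.disjoint_left]
      intro n hn hn'
      apply hne
      have e1 := NS_mod (mem_filter.1 hn).1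
      have e2 := NS_mod (mem_filter.1 hn').1
      have e3 : v ≡ v' [MOD (W0 * d')] := e1.symm.trans e2
      have e4 := mem_range.1 (hV hv)
      have e5 := mem_range.1 (hV hv')
      exact Nat.ModEq.eq_of_lt_of_lt e3 e4 e5
  refine le_trans ?_ h1
  refine le_trans ?_ (Finset.sum_le_sum h)
  rw [Finset.sum_const, nsmul_eq_mul]
  set q : ℝ := ((W0 * d').totient : ℝ) / (W0 * d' : ℕ) with hq
  have hq1 : q = (W0.totient : ℝ) / W0 * ((d'.totient : ℝ) / d') := by
    rw [hq, Nat.totient_mul hco]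
    push_cast
    field_simp
  have hφd1 : (d'.totient : ℝ) / d' ≤ 1 := by
    rw [div_le_one hd'r]
    exact_mod_cast Nat.totient_le d'
  have hφW1 : (W0.totient : ℝ) / W0 ≤ 1 := by
    rw [div_le_one hW0r]
    exact_mod_cast Nat.totient_le W0
  have hq0 : 0 < q := by rw [hq1]; positivity
  have hqd : q ≤ (d'.totient : ℝ) / d' := by
    rw [hq1]
    exact mul_le_of_le_one_left (by positivity) hφW1
  have hqk : q ^ k ≤ ((d'.totient : ℝ) / d') ^ k := pow_le_pow_left₀ hq0.le hqd k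
  have hVr : (d'.totient : ℝ) ≤ V.card := by exact_mod_cast hcard
  have h2 : (d'.totient : ℝ) * (C * (Real.log x / (W0 * d' : ℕ)) / (q * Real.log x) ^ k) ≤
      V.card * (C * (Real.log x / (W0 * d' : ℕ)) / (q * Real.log x) ^ k) :=
    mul_le_mul_of_nonneg_right hVr (by positivity)
  refine le_trans ?_ h2
  have h3 : (d'.totient : ℝ) * (C * (Real.log x / (W0 * d' : ℕ)) / (q * Real.log x) ^ k) =
      C / W0 * Real.log x / Real.log x ^ k * ((d'.totient : ℝ) / d' / q ^ k) := by
    push_cast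
    rw [mul_pow]
    field_simp
  have h4 : C / W0 * ((d' : ℝ) / d'.totient) ^ (k - 1) * Real.log x / Real.log x ^ k =
      C / W0 * Real.log x / Real.log x ^ k * ((d' : ℝ) / d'.totient) ^ (k - 1) := by ring
  rw [h3, h4]
  refine mul_le_mul_of_nonneg_left ?_ (by positivity)
  have h5 : ((d' : ℝ) / d'.totient) ^ (k - 1) =
      (d'.totient : ℝ) / d' / ((d'.totient : ℝ) / d') ^ k := by
    obtain ⟨m, rfl⟩ : ∃ m, k = m + 1 := ⟨k - 1, by omega⟩
    rw [Nat.add_sub_cancel, pow_succ, ← inv_div (d'.totient : ℝ) (d' : ℝ), inv_pow]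
    field_simp
  rw [h5]
  exact div_le_div_of_nonneg_left (by positivity) (by positivity) hqk

end Pool.Agent.Helper66.PU
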